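import Mathlib

set_option autoImplicit false

/-!
The sections of a Mahler function modulo `b ^ m` span a space of dimension `O(m)`.
-/

namespace Pool.Agent.Helper39K9.ET

open Finset Polynomial

/-- The dimension of the space spanned by the sections `n ↦ f (q n + u)`, `u < q`. -/
noncomputable def secRank {F : Type} [Field F] (f : ℕ → F) (q : ℕ) : ℕ :=
  Module.finrank F (Submodule.span F (Set.range fun u : Fin q => fun n : ℕ => f (q * n + u)))

/-- The power series `∑ f(n) z^n` satisfies a functional equation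
`P_0(z) f(z) + P_1(z) f(z^b) + ... + P_d(z) f(z^(b^d)) = 0` with polynomials `P_k` that are not all
zero. -/
def IsMahler {F : Type} [Field F] (b : ℕ) (f : ℕ → F) : Prop :=
  ∃ (d : ℕ) (P : ℕ → F[X]), (∃ k ≤ d, P k ≠ 0) ∧
    ∑ k ∈ Finset.range (d + 1), (P k : PowerSeries F) *
      PowerSeries.subst (PowerSeries.X ^ (b ^ k) : PowerSeries F) (PowerSeries.mk f) = 0

section

variable {F : Type} [Field F]

/-- The section of a power series. -/
noncomputable def Sec (q u : ℕ) (φ : PowerSeries F) : PowerSeries F :=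
  PowerSeries.mk fun n => PowerSeries.coeff (q * n + u) φ

theorem Sec_add (q u : ℕ) (φ ψ : PowerSeries F) : Sec q u (φ + ψ) = Sec q u φ + Sec q u ψ := by
  ext n; simp [Sec]

theorem Sec_zero (q u : ℕ) : Sec q u (0 : PowerSeries F) = 0 := by
  ext n; simp [Sec]

theorem Sec_sum {ι : Type} (s : Finset ι) (q u : ℕ) (φ : ι → PowerSeries F) :
    Sec q u (∑ i ∈ s, φ i) = ∑ i ∈ s, Sec q u (φ i) := by
  classical
  induction s using Finset.induction_on with
  | empty => simp [Sec_zero]
  | insert a s ha ih => rw [Finset.sum_insert ha, Finset.sum_insert ha, Sec_add, ih]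

theorem Sec_mul {q u : ℕ} (hq : q ≠ 0) (hu : u < q) (Y X : PowerSeries F) :
    Sec q u (PowerSeries.expand q hq Y * X) = Y * Sec q u X := by
  ext n
  rw [Sec, PowerSeries.coeff_mk, PowerSeries.coeff_mul, PowerSeries.coeff_mul]
  symm
  refine Finset.sum_of_injOn (fun p : ℕ × ℕ => (q * p.1, q * p.2 + u)) ?_ ?_ ?_ ?_
  · rintro ⟨a, c⟩ _ ⟨a', c'⟩ _ h
    simp only [Prod.mk.injEq, add_left_inj] at h
    have hq' : 0 < q := Nat.pos_of_ne_zero hq
    rw [Nat.eq_of_mul_eq_mul_left hq' h.1, Nat.eq_of_mul_eq_mul_left hq' h.2]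
  · rintro ⟨a, c⟩ h
    rw [Finset.mem_coe, Finset.HasAntidiagonal.mem_antidiagonal] at h ⊢
    simp only at h ⊢
    rw [← h]; ring
  · rintro ⟨i, j⟩ h1 h2
    rw [Finset.HasAntidiagonal.mem_antidiagonal] at h1
    simp only at h1 ⊢
    rw [PowerSeries.coeff_expand]
    split_ifs with h3
    · exfalso
      apply h2
      obtain ⟨a, rfl⟩ := h3
      have h4 : a ≤ n := by
        by_contra hc
        have h5 : q * (n + 1) ≤ q * a := Nat.mul_le_mul_left _ (by omega)
        rw [mul_add, mul_one] at h5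
        omega
      refine ⟨(a, n - a), ?_, ?_⟩
      · rw [Finset.mem_coe, Finset.HasAntidiagonal.mem_antidiagonal]
        simp only
        omega
      · simp only [Prod.mk.injEq, true_and]
        rw [Nat.mul_sub]
        have h5 : q * a ≤ q * n := Nat.mul_le_mul_left _ h4
        omega
    · rw [zero_mul]
  · rintro ⟨a, c⟩ _
    simp only [PowerSeries.coeff_expand, Nat.dvd_mul_right, if_true, Sec, PowerSeries.coeff_mk]
    rw [Nat.mul_div_cancel_left _ (Nat.pos_of_ne_zero hq)]

/-- The section of a polynomial. -/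
noncomputable def secP (q u : ℕ) (S : F[X]) : F[X] :=
  ∑ i ∈ Finset.range (S.natDegree / q + 1), Polynomial.monomial i (S.coeff (q * i + u))

theorem coeff_secP {q : ℕ} (hq : q ≠ 0) (u : ℕ) (S : F[X]) (n : ℕ) :
    (secP q u S).coeff n = S.coeff (q * n + u) := by
  unfold secP
  rw [Polynomial.finsetSum_coeff]
  simp only [Polynomial.coeff_monomial]
  by_cases hn : n ∈ Finset.range (S.natDegree / q + 1)
  · rw [Finset.sum_ite_eq' , if_pos hn]
  · rw [Finset.sum_ite_eq', if_neg hn]
    symm
    apply Polynomial.coeff_eq_zero_of_natDegree_lt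
    rw [Finset.mem_range] at hn
    have h1 : S.natDegree / q + 1 ≤ n := by omega
    have h2 : S.natDegree < q * (S.natDegree / q + 1) :=
      Nat.lt_mul_div_succ S.natDegree (Nat.pos_of_ne_zero hq)
    have h3 : q * (S.natDegree / q + 1) ≤ q * n := Nat.mul_le_mul_left _ h1
    omega

theorem natDegree_secP (q u : ℕ) (S : F[X]) : (secP q u S).natDegree ≤ S.natDegree / q := by
  unfold secP
  refine Polynomial.natDegree_sum_le_of_forall_le _ _ fun i hi => ?_
  rw [Finset.mem_range] at hi
  exact (Polynomial.natDegree_monomial_le _).trans (by omega)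

theorem Sec_coe {q : ℕ} (hq : q ≠ 0) (u : ℕ) (S : F[X]) :
    Sec q u (S : PowerSeries F) = (secP q u S : PowerSeries F) := by
  ext n
  rw [Sec, PowerSeries.coeff_mk, Polynomial.coeff_coe, Polynomial.coeff_coe, coeff_secP hq]

theorem expand_coe {q : ℕ} (hq : q ≠ 0) (S : F[X]) :
    ((Polynomial.expand F q S : F[X]) : PowerSeries F) =
      PowerSeries.expand q hq (S : PowerSeries F) := by
  ext n
  rw [Polynomial.coeff_coe, Polynomial.coeff_expand (Nat.pos_of_ne_zero hq),
    PowerSeries.coeff_expand, Polynomial.coeff_coe]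

/-- A multiple of `Q` of the form `G(z^q)` with `deg G ≤ deg Q`. -/
theorem exists_expand_multiple (q : ℕ) {Q : F[X]} (hQ : Q ≠ 0) :
    ∃ G T : F[X], G ≠ 0 ∧ G.natDegree ≤ Q.natDegree ∧ Polynomial.expand F q G = T * Q := by
  let φ : Polynomial.degreeLT F (Q.natDegree + 1) →ₗ[F] (F[X] ⧸ Ideal.span {Q}) :=
    ((Ideal.Quotient.mkₐ F (Ideal.span {Q})).toLinearMap ∘ₗ
      (Polynomial.expand F q).toLinearMap) ∘ₗ (Polynomial.degreeLT F (Q.natDegree + 1)).subtype
  have h1 : Module.finrank F (F[X] ⧸ Ideal.span {Q}) = Q.natDegree :=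
    finrank_quotient_span_eq_natDegree
  have h2 : Module.finrank F (Polynomial.degreeLT F (Q.natDegree + 1)) = Q.natDegree + 1 := by
    rw [LinearEquiv.finrank_eq (Polynomial.degreeLTEquiv F _)]
    simp
  have hfd1 : FiniteDimensional F (Polynomial.degreeLT F (Q.natDegree + 1)) :=
    Module.finite_of_finrank_pos (by rw [h2]; omega)
  have hfd2 : FiniteDimensional F (F[X] ⧸ Ideal.span {Q}) := by
    exact (AdjoinRoot.powerBasis hQ).finite
  have h3 : LinearMap.ker φ ≠ ⊥ := LinearMap.ker_ne_bot_of_finrank_lt (by rw [h1, h2]; omega)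
  obtain ⟨⟨G, hG⟩, hG1, hG2⟩ := (Submodule.ne_bot_iff _).1 h3
  rw [LinearMap.mem_ker] at hG1
  have h4 : Polynomial.expand F q G ∈ Ideal.span {Q} := by
    have h5 : (Ideal.Quotient.mk (Ideal.span {Q})) (Polynomial.expand F q G) = 0 := hG1
    exact Ideal.Quotient.eq_zero_iff_mem.1 h5
  obtain ⟨T, hT⟩ := Ideal.mem_span_singleton'.1 h4
  refine ⟨G, T, ?_, ?_, hT.symm⟩
  · rintro rfl
    apply hG2
    rfl
  · rw [Polynomial.mem_degreeLT] at hG
    by_cases h0 : G = 0
    · rw [h0]; simp
    · rw [Polynomial.degree_eq_natDegree h0] at hG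
      have : G.natDegree < Q.natDegree + 1 := by exact_mod_cast hG
      omega

end

end Pool.Agent.Helper39K9.ET
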