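import Pool.Agent.Helper39K9.ET.Step
import Pool.Agent.Helper39K9.ET.Mahler

set_option autoImplicit false

/-!
Functions of small section rank whose support is not too small vanish on no vertex of some Hilbert
cube.
-/

namespace Pool.Agent.Helper39K9.ET

open Finset Pool.Agent.TH314.ETH

theorem Fac.mono {F : Type} [Field F] {f : ℕ → F} {q r r' : ℕ} (hf : Fac f q r) (h : r ≤ r') :
    Fac f q r' := by
  obtain ⟨a, β, h1⟩ := hf
  refine ⟨fun u k => if hk : (k : ℕ) < r then a u ⟨k, hk⟩ else 0,
    fun n k => if hk : (k : ℕ) < r then β n ⟨k, hk⟩ else 0, fun n u hu => ?_⟩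
  rw [h1 n u hu]
  refine Finset.sum_of_injOn (fun k : Fin r => Fin.castLE h k) ?_ ?_ ?_ ?_
  · intro x _ y _ hxy
    simpa using hxy
  · intro x _
    exact Finset.mem_coe.2 (Finset.mem_univ _)
  · intro k _ hk
    have hk' : ¬ (k : ℕ) < r := by
      intro hlt
      apply hk
      exact ⟨⟨k, hlt⟩, Finset.mem_coe.2 (Finset.mem_univ _), Fin.ext rfl⟩
    simp only [dif_neg hk', mul_zero]
  · intro k _
    have hk : ((Fin.castLE h k : Fin r') : ℕ) < r := k.2
    simp only [dif_pos hk]
    rfl

/-- The factorisation given by the section rank. -/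
theorem fac_secRank {F : Type} [Field F] (f : ℕ → F) (q : ℕ) : Fac f q (secRank f q) := by
  set V := Submodule.span F (Set.range fun u : Fin q => fun n : ℕ => f (q * n + u)) with hV
  have hfin : Module.Finite F V := FiniteDimensional.span_of_finite F (Set.finite_range _)
  let B := Module.finBasis F V
  have hmem : ∀ u : Fin q, (fun n : ℕ => f (q * n + u)) ∈ V := fun u =>
    Submodule.subset_span ⟨u, rfl⟩
  refine ⟨fun u k => if hu : u < q then B.repr ⟨_, hmem ⟨u, hu⟩⟩ k else 0,
    fun n k => (B k : ℕ → F) n, fun n u hu => ?_⟩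
  simp only [dif_pos hu]
  have h1 := B.sum_repr ⟨_, hmem ⟨u, hu⟩⟩
  have h2 := congrArg (fun w : V => (w : ℕ → F) n) h1
  simp only [Submodule.coe_sum, Submodule.coe_smul, Finset.sum_apply, Pi.smul_apply,
    smul_eq_mul] at h2
  exact h2.symm

open Classical in
/-- The dichotomy: a row with a large support, or two rows with a large common support. -/
theorem alt {F : Type} [Field F] {g : ℕ → F} {q Q R r : ℕ} (hq : 1 ≤ q) (hQ : 1 ≤ Q)
    (hf : Fac g q r) (hrR : r ≤ R) (hY : 1 ≤ cnt g (Q * q)) :
    (∃ i < Q, cnt g (Q * q) ≤ 2 * R * cnt (fun u => g (q * i + u)) q) ∨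
    ∃ i < Q, ∃ s < Q, i ≠ s ∧
      cnt g (Q * q) ≤ 2 * Q * R * cnt (fun u => g (q * i + u) * g (q * s + u)) q := by
  obtain ⟨S, hS, hSQ, hrow⟩ := hf.rows Q
  set Y := cnt g (Q * q) with hYdef
  set N : ℕ → ℕ := fun i => cnt (fun u => g (q * i + u)) q with hN
  have hsum : Y ≤ ∑ i ∈ Finset.range Q, N i := cnt_le_sum g Q q hq
  by_cases h1 : ∃ i < Q, i ∉ S ∧ Y ≤ 2 * Q * N i
  · right
    obtain ⟨i, hi, hiS, hiY⟩ := h1
    set M : ℕ → ℕ := fun s => cnt (fun u => g (q * i + u) * g (q * s + u)) q with hM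
    have h2 : N i ≤ ∑ s ∈ S, M s := by
      have h3 : (Finset.range q).filter (fun u => g (q * i + u) ≠ 0) ⊆
          S.biUnion fun s => (Finset.range q).filter fun u => g (q * i + u) * g (q * s + u) ≠ 0 := by
        intro u hu
        rw [Finset.mem_filter, Finset.mem_range] at hu
        rw [Finset.mem_biUnion]
        by_contra hc
        push Not at hc
        apply hu.2
        refine hrow u hu.1 (fun s hs => ?_) i hi
        by_contra hne
        exact hc s hs (Finset.mem_filter.2 ⟨Finset.mem_range.2 hu.1, mul_ne_zero hu.2 hne⟩)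
      exact (Finset.card_le_card h3).trans Finset.card_biUnion_le
    have hNpos : 1 ≤ N i := by
      by_contra hc
      have h3 : N i = 0 := by omega
      rw [h3, mul_zero] at hiY
      omega
    obtain ⟨s, hs, hs2⟩ := sum_le_max S M (hS.trans hrR) (by omega)
    refine ⟨i, hi, s, hSQ s hs, fun hc => hiS (hc ▸ hs), ?_⟩
    calc Y ≤ 2 * Q * N i := hiY
      _ ≤ 2 * Q * (R * M s) := Nat.mul_le_mul_left _ (h2.trans hs2)
      _ = _ := by ring
  · left
    push Not at h1
    have h2 : S ⊆ Finset.range Q := fun i hi => Finset.mem_range.2 (hSQ i hi)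
    have h3 : ∑ i ∈ Finset.range Q, N i = ∑ i ∈ Finset.range Q \ S, N i + ∑ i ∈ S, N i :=
      (Finset.sum_sdiff h2).symm
    have h4 : 2 * Q * ∑ i ∈ Finset.range Q \ S, N i ≤ Q * Y := by
      rw [Finset.mul_sum]
      calc ∑ i ∈ Finset.range Q \ S, 2 * Q * N i ≤ ∑ _i ∈ Finset.range Q \ S, Y := by
            refine Finset.sum_le_sum fun i hi => ?_
            rw [Finset.mem_sdiff, Finset.mem_range] at hi
            exact (h1 i hi.1 hi.2).le
        _ = (Finset.range Q \ S).card * Y := by rw [Finset.sum_const, smul_eq_mul]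
        _ ≤ Q * Y := by
            refine Nat.mul_le_mul_right _ ?_
            exact (Finset.card_le_card Finset.sdiff_subset).trans (by simp)
    have h5 : Y ≤ 2 * ∑ i ∈ S, N i := by
      rw [h3] at hsum
      have h6 : 2 * Q * Y ≤ Q * Y + 2 * Q * ∑ i ∈ S, N i := by
        calc 2 * Q * Y ≤ 2 * Q * (∑ i ∈ Finset.range Q \ S, N i + ∑ i ∈ S, N i) :=
              Nat.mul_le_mul_left _ hsum
          _ = 2 * Q * ∑ i ∈ Finset.range Q \ S, N i + 2 * Q * ∑ i ∈ S, N i := by ring
          _ ≤ _ := Nat.add_le_add_right h4 _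
      have h7 : Q * Y ≤ Q * (2 * ∑ i ∈ S, N i) := by nlinarith
      exact Nat.le_of_mul_le_mul_left h7 hQ
    obtain ⟨i, hi, hi2⟩ := sum_le_max S N (hS.trans hrR) (by omega)
    exact ⟨i, hSQ i hi, by nlinarith⟩

open Classical in
theorem cnt_le {F : Type} [Field F] (g : ℕ → F) (N : ℕ) : cnt g N ≤ N := by
  unfold cnt
  exact (Finset.card_filter_le _ _).trans (by simp)

theorem Fac.shift {F : Type} [Field F] {g : ℕ → F} {b k j r : ℕ} (i : ℕ)
    (hf : Fac g (b ^ k) r) : Fac (fun u => g (b ^ (k + j) * i + u)) (b ^ k) r := by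
  obtain ⟨a, β, h1⟩ := hf
  refine ⟨a, fun n => β (b ^ j * i + n), fun n u hu => ?_⟩
  rw [← h1 _ _ hu]
  have e1 : b ^ (k + j) * i + (b ^ k * n + u) = b ^ k * (b ^ j * i + n) + u := by
    rw [pow_add]
    ring
  show g (b ^ (k + j) * i + (b ^ k * n + u)) = _
  rw [e1]

open Classical in
/-- **The cube theorem.** If `g` has small section ranks and more than `(2R)^(m/e) b^(et)` nonzero
values below `b^m`, then it does not vanish on a `t`-dimensional cube with distinct vertices. -/
theorem cube {F : Type} [Field F] {b e R : ℕ} (hb : 2 ≤ b) (he : 1 ≤ e) (hR : 1 ≤ R) :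
    ∀ (m t r : ℕ) (g : ℕ → F), r ^ 2 ^ t ≤ R ^ 2 → (∀ k ≤ m, Fac g (b ^ k) r) →
      (2 * R) ^ (m / e) * b ^ (e * t) ≤ cnt g (b ^ m) →
      ∃ (c : ℕ) (d : ℕ → ℕ), (∀ J ⊆ Finset.range t, c + ∑ j ∈ J, d j < b ^ m ∧
        g (c + ∑ j ∈ J, d j) ≠ 0) ∧
        ∀ J ⊆ Finset.range t, ∀ J' ⊆ Finset.range t, ∑ j ∈ J, d j = ∑ j ∈ J', d j → J = J' := by
  intro m
  induction m using Nat.strong_induction_on with
  | _ m ih =>
  intro t r g hrR hfac hcnt
  have h2R : 1 ≤ (2 * R) ^ (m / e) := Nat.one_le_pow _ _ (by omega)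
  have hY1 : 1 ≤ cnt g (b ^ m) := by
    refine le_trans ?_ hcnt
    exact Nat.mul_pos h2R (Nat.pow_pos (by omega))
  rcases Nat.eq_zero_or_pos t with rfl | ht
  · -- dimension zero
    have hpos : cnt g (b ^ m) ≠ 0 := by omega
    unfold cnt at hpos
    rw [Finset.card_ne_zero] at hpos
    obtain ⟨y, hy⟩ := hpos
    rw [Finset.mem_filter, Finset.mem_range] at hy
    refine ⟨y, fun _ => 0, fun J _ => ?_, fun J hJ J' hJ' _ => ?_⟩
    · simpa using hy
    · rw [Finset.range_zero, Finset.subset_empty] at hJ hJ'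
      rw [hJ, hJ']
  · obtain ⟨t, rfl⟩ : ∃ s, t = s + 1 := ⟨t - 1, by omega⟩
    have hrle : r ≤ R := by
      rcases Nat.eq_zero_or_pos r with rfl | hr
      · omega
      · have h1 : r ^ 2 ≤ r ^ 2 ^ (t + 1) := by
          refine Nat.pow_le_pow_right hr ?_
          calc 2 = 2 ^ 1 := rfl
            _ ≤ 2 ^ (t + 1) := Nat.pow_le_pow_right (by norm_num) (by omega)
        exact (Nat.pow_le_pow_iff_left (by norm_num)).1 (h1.trans hrR)
    have hem : e ≤ m := by
      by_contra hc
      have h1 : b ^ (e * (t + 1)) ≤ cnt g (b ^ m) := by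
        refine le_trans ?_ hcnt
        exact Nat.le_mul_of_pos_left _ h2R
      have h2 : b ^ e ≤ b ^ (e * (t + 1)) := Nat.pow_le_pow_right (by omega)
        (Nat.le_mul_of_pos_right _ (by omega))
      have h3 : b ^ m < b ^ e := Nat.pow_lt_pow_right (by omega) (by omega)
      have h4 := cnt_le g (b ^ m)
      omega
    obtain ⟨m', rfl⟩ : ∃ m', m = m' + e := ⟨m - e, by omega⟩
    have hdiv : (m' + e) / e = m' / e + 1 := by
      rw [Nat.add_div_right _ (by omega)]
    rw [hdiv] at hcnt
    have hq1 : 1 ≤ b ^ m' := Nat.one_le_pow _ _ (by omega)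
    have hQ1 : 1 ≤ b ^ e := Nat.one_le_pow _ _ (by omega)
    have hpow : b ^ (m' + e) = b ^ e * b ^ m' := by rw [pow_add, mul_comm]
    have hlt : ∀ i < b ^ e, ∀ u < b ^ m', b ^ m' * i + u < b ^ (m' + e) := by
      intro i hi u hu
      rw [hpow]
      calc b ^ m' * i + u < b ^ m' * i + b ^ m' := by omega
        _ = b ^ m' * (i + 1) := by ring
        _ ≤ b ^ m' * b ^ e := Nat.mul_le_mul_left _ hi
        _ = _ := by ring
    rw [hpow] at hcnt hY1
    rcases alt (R := R) hq1 hQ1 (hfac m' (by omega)) hrle hY1 with ⟨i, hi, h1⟩ |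
      ⟨i, hi, s, hs, his, h1⟩
    · -- a dense row
      have h2 : (2 * R) ^ (m' / e) * b ^ (e * (t + 1)) ≤
          cnt (fun u => g (b ^ m' * i + u)) (b ^ m') := by
        have h3 : 2 * R * ((2 * R) ^ (m' / e) * b ^ (e * (t + 1))) ≤
            2 * R * cnt (fun u => g (b ^ m' * i + u)) (b ^ m') := by
          calc _ = (2 * R) ^ (m' / e + 1) * b ^ (e * (t + 1)) := by ring
            _ ≤ _ := hcnt.trans h1
        exact Nat.le_of_mul_le_mul_left h3 (by omega)
      obtain ⟨c, d, hcd, hinj⟩ := ih m' (by omega) (t + 1) r (fun u => g (b ^ m' * i + u)) hrR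
        (fun k hk => by
          obtain ⟨j, rfl⟩ : ∃ j, m' = k + j := ⟨m' - k, by omega⟩
          exact (hfac k (by omega)).shift i) h2
      refine ⟨b ^ m' * i + c, d, fun J hJ => ?_, hinj⟩
      obtain ⟨h3, h4⟩ := hcd J hJ
      rw [add_assoc]
      exact ⟨hlt i hi _ h3, h4⟩
    · -- two rows
      wlog hlti : i < s generalizing i s with H
      · have h0 : (fun u => g (b ^ m' * s + u) * g (b ^ m' * i + u)) =
            fun u => g (b ^ m' * i + u) * g (b ^ m' * s + u) := by
          funext u; ring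
        exact H s hs i hi (Ne.symm his) (by rw [h0]; exact h1) (by omega)
      have h2 : (2 * R) ^ (m' / e) * b ^ (e * t) ≤
          cnt (fun u => g (b ^ m' * i + u) * g (b ^ m' * s + u)) (b ^ m') := by
        have h3 : 2 * b ^ e * R * ((2 * R) ^ (m' / e) * b ^ (e * t)) ≤
            2 * b ^ e * R * cnt (fun u => g (b ^ m' * i + u) * g (b ^ m' * s + u)) (b ^ m') := by
          calc _ = (2 * R) ^ (m' / e + 1) * b ^ (e * (t + 1)) := by
                rw [mul_add, mul_one, pow_add b (e * t) e]; ring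
            _ ≤ _ := hcnt.trans h1
        exact Nat.le_of_mul_le_mul_left h3 (by positivity)
      obtain ⟨c, d, hcd, hinj⟩ := ih m' (by omega) t (r * r)
        (fun u => g (b ^ m' * i + u) * g (b ^ m' * s + u))
        (by
          have h8 : (r * r) ^ 2 ^ t = r ^ 2 ^ (t + 1) := by
            rw [← pow_two, ← pow_mul, pow_succ 2 t, mul_comm 2]
          rw [h8]
          exact hrR)
        (fun k hk => by
          obtain ⟨j, rfl⟩ : ∃ j, m' = k + j := ⟨m' - k, by omega⟩
          have h8 := (hfac k (by omega)).mul (hfac k (by omega)) (b ^ j * i) (b ^ j * s)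
          have h9 : (fun z => g (b ^ k * (b ^ j * i) + z) * g (b ^ k * (b ^ j * s) + z)) =
              fun u => g (b ^ (k + j) * i + u) * g (b ^ (k + j) * s + u) := by
            funext z
            rw [pow_add, mul_assoc, mul_assoc]
          rw [← h9]
          exact h8) h2
      have hup : ∀ J ⊆ Finset.range t, ∑ j ∈ J, Function.update d t (b ^ m' * (s - i)) j =
          ∑ j ∈ J, d j := by
        intro J hJ
        refine Finset.sum_congr rfl fun j hj => ?_
        have := Finset.mem_range.1 (hJ hj)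
        rw [Function.update_of_ne (by omega)]
      have herase : ∀ J ⊆ Finset.range (t + 1), J.erase t ⊆ Finset.range t := by
        intro J hJ j hj
        rw [Finset.mem_erase] at hj
        have := Finset.mem_range.1 (hJ hj.2)
        rw [Finset.mem_range]
        omega
      have hsumin : ∀ J ⊆ Finset.range (t + 1), t ∈ J →
          ∑ j ∈ J, Function.update d t (b ^ m' * (s - i)) j =
            b ^ m' * (s - i) + ∑ j ∈ J.erase t, d j := by
        intro J hJ htJ
        rw [← Finset.add_sum_erase _ _ htJ, hup _ (herase J hJ), Function.update_self]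
      have hsub : ∀ J ⊆ Finset.range (t + 1), t ∉ J → J ⊆ Finset.range t := by
        intro J hJ htJ j hj
        have := Finset.mem_range.1 (hJ hj)
        rw [Finset.mem_range]
        have : j ≠ t := fun hc => htJ (hc ▸ hj)
        omega
      have hbs : b ^ m' * i + b ^ m' * (s - i) = b ^ m' * s := by
        rw [← mul_add]; congr 1; omega
      have hbig : b ^ m' ≤ b ^ m' * (s - i) := Nat.le_mul_of_pos_right _ (by omega)
      refine ⟨b ^ m' * i + c, Function.update d t (b ^ m' * (s - i)), fun J hJ => ?_,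
        fun J hJ J' hJ' heq => ?_⟩
      · by_cases htJ : t ∈ J
        · rw [hsumin J hJ htJ]
          obtain ⟨h3, h4⟩ := hcd _ (herase J hJ)
          have h5 : b ^ m' * i + c + (b ^ m' * (s - i) + ∑ j ∈ J.erase t, d j) =
              b ^ m' * s + (c + ∑ j ∈ J.erase t, d j) := by omega
          rw [h5]
          exact ⟨hlt s hs _ h3, right_ne_zero_of_mul h4⟩
        · have hJ2 := hsub J hJ htJ
          rw [hup J hJ2]
          obtain ⟨h3, h4⟩ := hcd J hJ2
          rw [add_assoc]
          exact ⟨hlt i hi _ h3, left_ne_zero_of_mul h4⟩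
      · by_cases htJ : t ∈ J
        · by_cases htJ' : t ∈ J'
          · rw [hsumin J hJ htJ, hsumin J' hJ' htJ'] at heq
            have h3 := hinj _ (herase J hJ) _ (herase J' hJ') (by omega)
            rw [← Finset.insert_erase htJ, h3, Finset.insert_erase htJ']
          · exfalso
            rw [hsumin J hJ htJ, hup J' (hsub J' hJ' htJ')] at heq
            have := (hcd J' (hsub J' hJ' htJ')).1
            omega
        · by_cases htJ' : t ∈ J'
          · exfalso
            rw [hsumin J' hJ' htJ', hup J (hsub J hJ htJ)] at heq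
            have := (hcd J (hsub J hJ htJ)).1
            omega
          · rw [hup J (hsub J hJ htJ), hup J' (hsub J' hJ' htJ')] at heq
            exact hinj _ (hsub J hJ htJ) _ (hsub J' hJ' htJ') heq

end Pool.Agent.Helper39K9.ET
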