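import Mathlib
import Pool.Agent.TH314.ETH.Res

set_option autoImplicit false

/-!
Sets with bounded representation function of order `h`: bounds in intervals, symmetric sets; the
factorisations of functions with values in a field along the classes of a modulus.
-/

namespace Pool.Agent.Helper39K9.ET

open Finset Pool.Agent.TH314.ETH

/-- An interval of length `L` contains at most `(h ^ (h + 1) K L) ^ (1/h)` elements of `A`. -/
theorem interval_bound {A : Set ℕ} {h K : ℕ} (hh : 1 ≤ h) (hr : ∀ n, rep A h n ≤ K) (F : Finset ℕ)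
    (hF : ∀ a ∈ F, a ∈ A) (z L : ℕ) (hL : 1 ≤ L) (hI : ∀ a ∈ F, z ≤ a ∧ a < z + L) :
    F.card ^ h ≤ h ^ (h + 1) * K * L := by
  have h1 : (tup F h).card = F.card ^ h := by
    rw [tup, Fintype.card_piFinset_const]
  have hmaps : ∀ v ∈ tup F h, (∑ i, v i) ∈ Finset.Ico (h * z) (h * z + h * L) := by
    intro v hv
    rw [tup, Fintype.mem_piFinset] at hv
    rw [Finset.mem_Ico]
    have h2 : ∀ i, z ≤ v i ∧ v i ≤ z + (L - 1) := fun i => by
      have := hI _ (hv i); omega
    have h3 : ∑ _i : Fin h, z ≤ ∑ i, v i := Finset.sum_le_sum fun i _ => (h2 i).1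
    have h4 : ∑ i, v i ≤ ∑ _i : Fin h, (z + (L - 1)) := Finset.sum_le_sum fun i _ => (h2 i).2
    simp only [Finset.sum_const, Finset.card_univ, Fintype.card_fin, smul_eq_mul] at h3 h4
    refine ⟨h3, ?_⟩
    obtain ⟨l, rfl⟩ : ∃ l, L = l + 1 := ⟨L - 1, by omega⟩
    simp only [Nat.add_sub_cancel] at h4
    nlinarith
  calc F.card ^ h = (tup F h).card := h1.symm
    _ = ∑ n ∈ Finset.Ico (h * z) (h * z + h * L), ((tup F h).filter fun v => ∑ i, v i = n).card :=
        Finset.card_eq_sum_card_fiberwise hmaps
    _ ≤ ∑ _n ∈ Finset.Ico (h * z) (h * z + h * L), h ^ h * K := by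
        refine Finset.sum_le_sum fun n _ => ?_
        exact (RF_le hF h n).trans (Nat.mul_le_mul_left _ (hr n))
    _ = h ^ (h + 1) * K * L := by
        rw [Finset.sum_const, Nat.card_Ico, smul_eq_mul, pow_succ]
        have : h * z + h * L - h * z = h * L := by omega
        rw [this]; ring

/-- A finite symmetric subset of `A` has at most `2 K` elements. -/
theorem symm_bound {A : Set ℕ} {h K : ℕ} (hh : 2 ≤ h) (hr : ∀ n, rep A h n ≤ K) (T : Finset ℕ)
    (hT : ∀ a ∈ T, a ∈ A) (S : ℕ) (hS : ∀ a ∈ T, a ≤ S ∧ S - a ∈ T) : T.card ≤ 2 * K := by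
  classical
  rcases T.eq_empty_or_nonempty with rfl | ⟨a0, ha0⟩
  · simp
  let ms : ℕ → Multiset ℕ := fun x => x ::ₘ (S - x) ::ₘ Multiset.replicate (h - 2) a0
  have hB := msets_finite A h (S + (h - 2) * a0)
  have h1 : T.image ms ⊆ hB.toFinset := by
    intro m hm
    obtain ⟨x, hx, rfl⟩ := Finset.mem_image.1 hm
    rw [Set.Finite.mem_toFinset]
    refine ⟨?_, ?_, ?_⟩
    · simp only [ms, Multiset.card_cons, Multiset.card_replicate]
      omega
    · intro a ha
      simp only [ms, Multiset.mem_cons, Multiset.mem_replicate] at ha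
      rcases ha with rfl | rfl | ⟨_, rfl⟩
      · exact hT _ hx
      · exact hT _ (hS x hx).2
      · exact hT _ ha0
    · simp only [ms, Multiset.sum_cons, Multiset.sum_replicate, smul_eq_mul]
      have := (hS x hx).1
      omega
  have h2 : (T.image ms).card ≤ K := by
    refine (Finset.card_le_card h1).trans ?_
    have h3 : hB.toFinset.card = rep A h (S + (h - 2) * a0) := by
      unfold rep
      rw [Set.ncard_eq_toFinset_card _ hB]
    rw [h3]
    exact hr _
  have h3 : T.card ≤ 2 * (T.image ms).card := by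
    refine Finset.card_le_mul_card_image T 2 fun m hm => ?_
    obtain ⟨x, hx, rfl⟩ := Finset.mem_image.1 hm
    have h4 : (T.filter fun y => ms y = ms x) ⊆ {x, S - x} := by
      intro y hy
      rw [Finset.mem_filter] at hy
      have hy1 := (hS y hy.1).1
      have hx1 := (hS x hx).1
      have h5 : ({y, S - y} : Multiset ℕ) = {x, S - x} := by
        have h6 : ({y, S - y} : Multiset ℕ) + Multiset.replicate (h - 2) a0 =
            {x, S - x} + Multiset.replicate (h - 2) a0 := by
          have := hy.2
          simpa [ms] using this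
        exact add_right_cancel h6
      have h7 : y ∈ ({x, S - x} : Multiset ℕ) := by
        rw [← h5]; simp
      simpa using h7
    exact (Finset.card_le_card h4).trans Finset.card_le_two
  omega

/-! ### Factorisations -/

/-- The matrix `(f (q n + u))_{n, u}`, `u < q`, is a product of matrices with inner size at most
`r`. -/
def Fac {F : Type} [Field F] (f : ℕ → F) (q r : ℕ) : Prop :=
  ∃ (a β : ℕ → Fin r → F), ∀ n u, u < q → f (q * n + u) = ∑ k, a u k * β n k

theorem Fac.mul {F : Type} [Field F] {f g : ℕ → F} {q r s : ℕ} (hf : Fac f q r) (hg : Fac g q s)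
    (x y : ℕ) : Fac (fun z => f (q * x + z) * g (q * y + z)) q (r * s) := by
  obtain ⟨a, β, h1⟩ := hf
  obtain ⟨a', β', h2⟩ := hg
  refine ⟨fun u k => a u (finProdFinEquiv.symm k).1 * a' u (finProdFinEquiv.symm k).2,
    fun n k => β (x + n) (finProdFinEquiv.symm k).1 * β' (y + n) (finProdFinEquiv.symm k).2,
    fun n u hu => ?_⟩
  have e1 : q * x + (q * n + u) = q * (x + n) + u := by ring
  have e2 : q * y + (q * n + u) = q * (y + n) + u := by ring
  simp only
  rw [e1, e2, h1 _ _ hu, h2 _ _ hu, Finset.sum_mul_sum]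
  have h3 : ∑ i : Fin r, ∑ j : Fin s, a u i * β (x + n) i * (a' u j * β' (y + n) j) =
      ∑ p : Fin r × Fin s, a u p.1 * β (x + n) p.1 * (a' u p.2 * β' (y + n) p.2) :=
    (Fintype.sum_prod_type (f := fun p : Fin r × Fin s =>
      a u p.1 * β (x + n) p.1 * (a' u p.2 * β' (y + n) p.2))).symm
  rw [h3, ← Equiv.sum_comp finProdFinEquiv.symm]
  exact Finset.sum_congr rfl fun k _ => by ring

/-- Rows which detect the nonzero columns. -/
theorem Fac.rows {F : Type} [Field F] {f : ℕ → F} {q r : ℕ} (hf : Fac f q r) (Q : ℕ) :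
    ∃ S : Finset ℕ, S.card ≤ r ∧ (∀ i ∈ S, i < Q) ∧
      ∀ u < q, (∀ i ∈ S, f (q * i + u) = 0) → ∀ i < Q, f (q * i + u) = 0 := by
  classical
  obtain ⟨a, β, h1⟩ := hf
  obtain ⟨κ, e, he, hsp, hli⟩ := exists_linearIndependent' F (fun i : Fin Q => β i)
  have hfin : Finite κ := Finite.of_injective e he
  have : Fintype κ := Fintype.ofFinite κ
  have hcard : Fintype.card κ ≤ r := by
    have := hli.fintype_card_le_finrank
    simpa using this
  refine ⟨Finset.univ.image fun k : κ => (e k : ℕ), ?_, ?_, ?_⟩
  · exact Finset.card_image_le.trans (by simpa using hcard)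
  · intro i hi
    obtain ⟨k, _, rfl⟩ := Finset.mem_image.1 hi
    exact (e k).2
  · intro u hu h0 i hi
    have h2 : β i ∈ Submodule.span F (Set.range ((fun i : Fin Q => β i) ∘ e)) := by
      rw [hsp]
      exact Submodule.subset_span ⟨⟨i, hi⟩, rfl⟩
    have h3 : ∀ w ∈ Submodule.span F (Set.range ((fun i : Fin Q => β i) ∘ e)),
        ∑ k, a u k * w k = 0 := by
      intro w hw
      induction hw using Submodule.span_induction with
      | mem w hw =>
        obtain ⟨k, rfl⟩ := hw
        have := h0 (e k) (Finset.mem_image_of_mem _ (Finset.mem_univ k))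
        rw [h1 _ _ hu] at this
        exact this
      | zero => simp
      | add w w' _ _ h4 h5 => simp only [Pi.add_apply, mul_add, Finset.sum_add_distrib, h4, h5,
          add_zero]
      | smul c w _ h4 =>
        have : ∑ k, a u k * (c • w) k = c * ∑ k, a u k * w k := by
          rw [Finset.mul_sum]
          exact Finset.sum_congr rfl fun k _ => by simp only [Pi.smul_apply, smul_eq_mul]; ring
        rw [this, h4, mul_zero]
    rw [h1 _ _ hu]
    exact h3 _ h2

end Pool.Agent.Helper39K9.ET
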