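import Pool.Agent.Helper39K9.ET.Mahler

set_option autoImplicit false

namespace Pool.Agent.Helper39K9.ET

open Finset Polynomial

section

variable {F : Type} [Field F]

/-- the substitution `z ↦ z ^ (b ^ k)` -/
noncomputable def Ek (b : ℕ) (hb : b ≠ 0) (k : ℕ) (φ : PowerSeries F) : PowerSeries F :=
  PowerSeries.expand (b ^ k) (pow_ne_zero k hb) φ

theorem Ek_zero {b : ℕ} (hb : b ≠ 0) (φ : PowerSeries F) : Ek b hb 0 φ = φ := by
  ext n
  simp [Ek, PowerSeries.coeff_expand]

theorem Ek_succ {b : ℕ} (hb : b ≠ 0) (k : ℕ) (φ : PowerSeries F) :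
    Ek b hb (k + 1) φ = PowerSeries.expand b hb (Ek b hb k φ) := by
  unfold Ek
  rw [← PowerSeries.expand_mul]
  congr 2
  rw [pow_succ, mul_comm]

theorem Sec_mul_Ek {b v : ℕ} (hb : b ≠ 0) (hv : v < b) (k : ℕ) (φ : PowerSeries F) (S : F[X]) :
    Sec b v ((S : PowerSeries F) * Ek b hb (k + 1) φ) =
      (secP b v S : PowerSeries F) * Ek b hb k φ := by
  rw [Ek_succ, mul_comm, Sec_mul hb hv, Sec_coe hb, mul_comm]

/-- We may assume that the first coefficient is nonzero. -/
theorem exists_eq {b : ℕ} (hb : b ≠ 0) (φ : PowerSeries F) : ∀ (d : ℕ) (P : ℕ → F[X]),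
    (∃ k ≤ d, P k ≠ 0) → ∑ k ∈ Finset.range (d + 1), (P k : PowerSeries F) * Ek b hb k φ = 0 →
    ∃ (d' : ℕ) (P' : ℕ → F[X]), P' 0 ≠ 0 ∧
      ∑ k ∈ Finset.range (d' + 1), (P' k : PowerSeries F) * Ek b hb k φ = 0 := by
  intro d
  induction d with
  | zero =>
    rintro P ⟨k, hk, h1⟩ h2
    have : k = 0 := by omega
    subst this
    exact ⟨0, P, h1, h2⟩
  | succ d ih =>
    rintro P ⟨k, hk, h1⟩ h2
    by_cases h0 : P 0 = 0
    · obtain ⟨k, rfl⟩ : ∃ k', k = k' + 1 := by
        rcases Nat.exists_eq_add_one_of_ne_zero (n := k) (by rintro rfl; exact h1 h0) with ⟨k', h⟩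
        exact ⟨k', h⟩
      obtain ⟨j, hj⟩ : ∃ j, (P (k + 1)).coeff j ≠ 0 := by
        by_contra hc
        push Not at hc
        exact h1 (Polynomial.ext (by simpa using hc))
      have hv : j % b < b := Nat.mod_lt _ (Nat.pos_of_ne_zero hb)
      refine ih (fun i => secP b (j % b) (P (i + 1))) ⟨k, by omega, ?_⟩ ?_
      · intro h3
        have h4 := congrArg (fun S => Polynomial.coeff S (j / b)) h3
        simp only [coeff_secP hb, Polynomial.coeff_zero] at h4
        rw [Nat.div_add_mod] at h4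
        exact hj h4
      · rw [Finset.sum_range_succ', h0] at h2
        simp only [Polynomial.coe_zero, zero_mul, add_zero] at h2
        have h3 := congrArg (Sec b (j % b)) h2
        rw [Sec_sum, Sec_zero] at h3
        simp only [Sec_mul_Ek hb hv] at h3
        exact h3
    · exact ⟨_, P, h0, h2⟩

theorem Sec_Sec (b m u v : ℕ) (φ : PowerSeries F) :
    Sec b v (Sec (b ^ m) u φ) = Sec (b ^ (m + 1)) (b ^ m * v + u) φ := by
  ext n
  simp only [Sec, PowerSeries.coeff_mk]
  congr 2
  ring

/-- All sections modulo `b ^ m`, multiplied by one polynomial, are combinations of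
`φ(z), φ(z^b), ..., φ(z^(b^(d-1)))` with polynomial coefficients of degree `O(m)`. -/
theorem sections_bound {b : ℕ} (hb0 : b ≠ 0) (hb : 2 ≤ b) (φ : PowerSeries F) (d : ℕ)
    (P : ℕ → F[X]) (hP : P 0 ≠ 0) (e H : ℕ) (he : (P 0).natDegree = e)
    (hH : ∀ k, k ≤ d + 1 → (P k).natDegree ≤ H)
    (hE : ∑ k ∈ Finset.range (d + 1 + 1), (P k : PowerSeries F) * Ek b hb0 k φ = 0) (m : ℕ) :
    ∃ G : F[X], G ≠ 0 ∧ G.natDegree ≤ e * m ∧ ∀ u < b ^ m, ∃ S : ℕ → F[X],
      (∀ k < d + 1, (S k).natDegree ≤ 2 * e * m + H) ∧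
      (G : PowerSeries F) * Sec (b ^ m) u φ =
        ∑ k ∈ Finset.range (d + 1), (S k : PowerSeries F) * Ek b hb0 k φ := by
  induction m with
  | zero =>
    refine ⟨1, one_ne_zero, by simp, fun u hu => ?_⟩
    refine ⟨fun k => if k = 0 then 1 else 0, fun k _ => by dsimp only; split_ifs <;> simp, ?_⟩
    have hu0 : u = 0 := by simpa using hu
    subst hu0
    rw [Finset.sum_eq_single_of_mem 0 (by simp) (fun k _ hk => by simp [hk])]
    rw [Ek_zero]
    simp only [if_true, Polynomial.coe_one, one_mul]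
    ext n
    simp [Sec]
  | succ m ih =>
    obtain ⟨G, hG0, hGd, hG⟩ := ih
    have heH : e ≤ H := by rw [← he]; exact hH 0 (Nat.zero_le _)
    have hQ0 : P 0 * G ≠ 0 := mul_ne_zero hP hG0
    obtain ⟨G', T, hG'0, hG'd, hT⟩ := exists_expand_multiple b hQ0
    have hG'd2 : G'.natDegree ≤ e * (m + 1) := by
      refine hG'd.trans ?_
      rw [Polynomial.natDegree_mul hP hG0, he]
      have : e * (m + 1) = e + e * m := by ring
      omega
    have hTd : T.natDegree ≤ b * (e * (m + 1)) := by
      have h1 : (Polynomial.expand F b G').natDegree = G'.natDegree * b :=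
        Polynomial.natDegree_expand b G'
      have hT0 : T ≠ 0 := by
        rintro rfl
        rw [zero_mul] at hT
        exact hG'0 ((Polynomial.expand_eq_zero (Nat.pos_of_ne_zero hb0)).1 hT)
      rw [hT, Polynomial.natDegree_mul hT0 hQ0] at h1
      calc T.natDegree ≤ G'.natDegree * b := by omega
        _ ≤ (e * (m + 1)) * b := Nat.mul_le_mul_right _ hG'd2
        _ = _ := mul_comm _ _
    refine ⟨G', hG'0, hG'd2, fun u' hu' => ?_⟩
    have hbm : 0 < b ^ m := Nat.pow_pos (by omega)
    have hu : u' % b ^ m < b ^ m := Nat.mod_lt _ hbm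
    have hv : u' / b ^ m < b := by
      rw [Nat.div_lt_iff_lt_mul hbm, ← pow_succ']
      exact hu'
    obtain ⟨S, hSd, hS⟩ := hG _ hu
    -- the new coefficients before taking sections
    let R : ℕ → F[X] := fun k => (if k < d then P 0 * S (k + 1) else 0) - S 0 * P (k + 1)
    have hRd : ∀ k < d + 1, (R k).natDegree ≤ 2 * e * m + H + H := by
      intro k hk
      refine (Polynomial.natDegree_sub_le _ _).trans (max_le ?_ ?_)
      · split_ifs with h1
        · refine Polynomial.natDegree_mul_le.trans ?_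
          have := hSd (k + 1) (by omega)
          omega
        · simp
      · refine Polynomial.natDegree_mul_le.trans ?_
        have h1 := hSd 0 (by omega)
        have h2 := hH (k + 1) (by omega)
        omega
    have hR : (P 0 : PowerSeries F) * ((G : PowerSeries F) * Sec (b ^ m) (u' % b ^ m) φ) =
        ∑ k ∈ Finset.range (d + 1), (R k : PowerSeries F) * Ek b hb0 (k + 1) φ := by
      have h1 : (P 0 : PowerSeries F) * Ek b hb0 0 φ =
          - ∑ k ∈ Finset.range (d + 1), (P (k + 1) : PowerSeries F) * Ek b hb0 (k + 1) φ := by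
        rw [Finset.sum_range_succ'] at hE
        rw [add_comm] at hE
        exact eq_neg_of_add_eq_zero_left hE
      have h2 : ∑ k ∈ Finset.range (d + 1), (R k : PowerSeries F) * Ek b hb0 (k + 1) φ =
          (∑ k ∈ Finset.range (d + 1), ((if k < d then P 0 * S (k + 1) else 0 : F[X]) :
            PowerSeries F) * Ek b hb0 (k + 1) φ) -
          (S 0 : PowerSeries F) * ∑ k ∈ Finset.range (d + 1), (P (k + 1) : PowerSeries F) *
            Ek b hb0 (k + 1) φ := by
        rw [Finset.mul_sum, ← Finset.sum_sub_distrib]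
        refine Finset.sum_congr rfl fun k _ => ?_
        simp only [R, Polynomial.coe_sub, Polynomial.coe_mul]
        ring
      have h3 : (∑ k ∈ Finset.range (d + 1), ((if k < d then P 0 * S (k + 1) else 0 : F[X]) :
            PowerSeries F) * Ek b hb0 (k + 1) φ) =
          ∑ k ∈ Finset.range d, (P 0 : PowerSeries F) * ((S (k + 1) : PowerSeries F) *
            Ek b hb0 (k + 1) φ) := by
        rw [Finset.sum_range_succ]
        simp only [lt_self_iff_false, if_false, Polynomial.coe_zero, zero_mul, add_zero]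
        refine Finset.sum_congr rfl fun k hk => ?_
        rw [if_pos (Finset.mem_range.1 hk), Polynomial.coe_mul, mul_assoc]
      rw [h2, h3, hS, Finset.sum_range_succ', mul_add, Finset.mul_sum]
      have h4 : (P 0 : PowerSeries F) * ((S 0 : PowerSeries F) * Ek b hb0 0 φ) =
          - ((S 0 : PowerSeries F) * ∑ k ∈ Finset.range (d + 1), (P (k + 1) : PowerSeries F) *
            Ek b hb0 (k + 1) φ) := by
        rw [mul_left_comm, h1, mul_neg]
      rw [h4, sub_eq_add_neg]
    refine ⟨fun k => secP b (u' / b ^ m) (T * R k), fun k hk => ?_, ?_⟩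
    · refine (natDegree_secP _ _ _).trans ?_
      have h1 : (T * R k).natDegree ≤ b * (e * (m + 1)) + (2 * e * m + H + H) :=
        Polynomial.natDegree_mul_le.trans (Nat.add_le_add hTd (hRd k hk))
      calc (T * R k).natDegree / b ≤ (b * (e * (m + 1)) + (2 * e * m + H + H)) / b :=
            Nat.div_le_div_right h1
        _ = e * (m + 1) + (2 * e * m + H + H) / b := by
            rw [Nat.mul_add_div (Nat.pos_of_ne_zero hb0)]
        _ ≤ e * (m + 1) + (2 * e * m + H + H) / 2 := by
            exact Nat.add_le_add_left (Nat.div_le_div_left hb (by norm_num)) _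
        _ ≤ 2 * e * (m + 1) + H := by
            have h2 : 2 * e * m + H + H = 2 * (e * m + H) := by ring
            rw [h2, Nat.mul_div_cancel_left _ (by norm_num)]
            nlinarith
    · have h1 : Sec (b ^ (m + 1)) u' φ = Sec b (u' / b ^ m) (Sec (b ^ m) (u' % b ^ m) φ) := by
        rw [Sec_Sec, Nat.div_add_mod]
      rw [h1, ← Sec_mul hb0 hv, ← expand_coe hb0, hT]
      have h2 : ((T * (P 0 * G) : F[X]) : PowerSeries F) * Sec (b ^ m) (u' % b ^ m) φ =
          (T : PowerSeries F) * ((P 0 : PowerSeries F) * ((G : PowerSeries F) *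
            Sec (b ^ m) (u' % b ^ m) φ)) := by
        rw [Polynomial.coe_mul, Polynomial.coe_mul]; ring
      rw [h2, hR, Finset.mul_sum, Sec_sum]
      refine Finset.sum_congr rfl fun k _ => ?_
      rw [← mul_assoc, ← Polynomial.coe_mul, Sec_mul_Ek hb0 hv]

/-- power series of functions, as a linear map -/
noncomputable def toPS : (ℕ → F) →ₗ[F] PowerSeries F where
  toFun := PowerSeries.mk
  map_add' f g := by ext n; simp
  map_smul' c f := by ext n; simp

theorem poly_mul_mem {M : Submodule F (PowerSeries F)} {ψ : PowerSeries F} {N : ℕ}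
    (h : ∀ i < N, (PowerSeries.X ^ i : PowerSeries F) * ψ ∈ M) {S : F[X]} (hS : S.natDegree < N) :
    (S : PowerSeries F) * ψ ∈ M := by
  have h1 : (S : PowerSeries F) = ∑ i ∈ Finset.range N, (S.coeff i) • (PowerSeries.X ^ i) := by
    conv_lhs => rw [S.as_sum_range' N hS]
    rw [← Polynomial.coeToPowerSeries.ringHom_apply, map_sum]
    refine Finset.sum_congr rfl fun i _ => ?_
    rw [Polynomial.coeToPowerSeries.ringHom_apply, Polynomial.coe_monomial]
    ext n
    simp [PowerSeries.coeff_monomial, PowerSeries.coeff_X_pow]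
  rw [h1, Finset.sum_mul]
  refine M.sum_mem fun i hi => ?_
  rw [smul_mul_assoc]
  exact M.smul_mem _ (h i (Finset.mem_range.1 hi))

/-- The section rank of a Mahler sequence grows at most linearly. -/
theorem secRank_mahler {b : ℕ} (hb : 2 ≤ b) {f : ℕ → F} (hf : IsMahler b f) :
    ∃ C : ℕ, ∀ m, secRank f (b ^ m) ≤ C * (m + 1) := by
  have hb0 : b ≠ 0 := by omega
  obtain ⟨d0, P0, h0, hE0⟩ := hf
  have hE0' : ∑ k ∈ Finset.range (d0 + 1), (P0 k : PowerSeries F) *
      Ek b hb0 k (PowerSeries.mk f) = 0 := by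
    rw [← hE0]
    refine Finset.sum_congr rfl fun k _ => ?_
    unfold Ek
    rw [PowerSeries.expand_apply]
  obtain ⟨d, P1, hP1, hE1⟩ := exists_eq hb0 _ d0 P0 h0 hE0'
  -- pad by a zero coefficient
  let P : ℕ → F[X] := fun k => if k ≤ d then P1 k else 0
  have hP : P 0 ≠ 0 := by simpa [P] using hP1
  have hE : ∑ k ∈ Finset.range (d + 1 + 1), (P k : PowerSeries F) *
      Ek b hb0 k (PowerSeries.mk f) = 0 := by
    rw [Finset.sum_range_succ]
    have h1 : P (d + 1) = 0 := by simp [P]
    rw [h1, Polynomial.coe_zero, zero_mul, add_zero, ← hE1]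
    refine Finset.sum_congr rfl fun k hk => ?_
    have h2 : k ≤ d := by rw [Finset.mem_range] at hk; omega
    simp only [P, if_pos h2]
  obtain ⟨H, hH⟩ : ∃ H, ∀ k, k ≤ d + 1 → (P k).natDegree ≤ H := by
    refine ⟨∑ k ∈ Finset.range (d + 2), (P k).natDegree, fun k hk => ?_⟩
    exact Finset.single_le_sum (f := fun k => (P k).natDegree) (fun _ _ => Nat.zero_le _)
      (Finset.mem_range.2 (by omega))
  refine ⟨(d + 1) * (2 * (P 0).natDegree + H + 1), fun m => ?_⟩
  obtain ⟨G, hG0, _, hG⟩ := sections_bound hb0 hb (PowerSeries.mk f) d P hP _ H rfl hH hE m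
  set N := 2 * (P 0).natDegree * m + H + 1 with hN
  let M : Submodule F (PowerSeries F) := Submodule.span F (Set.range fun p : Fin (d + 1) × Fin N =>
    (PowerSeries.X ^ (p.2 : ℕ) : PowerSeries F) * Ek b hb0 p.1 (PowerSeries.mk f))
  have hMrank : Module.finrank F M ≤ (d + 1) * N := by
    refine (finrank_range_le_card _).trans ?_
    simp
  have hMfin : Module.Finite F M := by
    exact FiniteDimensional.span_of_finite F (Set.finite_range _)
  let Ψ : (ℕ → F) →ₗ[F] PowerSeries F := (LinearMap.mulLeft F (G : PowerSeries F)) ∘ₗ toPS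
  have hΨ : Function.Injective Ψ := by
    intro x y hxy
    have h1 : (G : PowerSeries F) * PowerSeries.mk x = (G : PowerSeries F) * PowerSeries.mk y := hxy
    have h2 : (G : PowerSeries F) ≠ 0 := by
      intro h; exact hG0 (by simpa using h)
    have h3 := mul_left_cancel₀ h2 h1
    funext n
    have := congrArg (PowerSeries.coeff n) h3
    simpa using this
  have hsub : (Submodule.span F (Set.range fun u : Fin (b ^ m) => fun n : ℕ =>
      f (b ^ m * n + u))).map Ψ ≤ M := by
    rw [Submodule.map_span, Submodule.span_le]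
    rintro _ ⟨_, ⟨u, rfl⟩, rfl⟩
    obtain ⟨S, hS1, hS2⟩ := hG u u.2
    have h1 : Ψ (fun n : ℕ => f (b ^ m * n + u)) =
        (G : PowerSeries F) * Sec (b ^ m) u (PowerSeries.mk f) := by
      have h2 : (PowerSeries.mk fun n : ℕ => f (b ^ m * n + u)) =
          Sec (b ^ m) u (PowerSeries.mk f) := by
        ext n; simp [Sec]
      rw [← h2]
      rfl
    rw [h1, hS2]
    refine M.sum_mem fun k hk => ?_
    have hk' := Finset.mem_range.1 hk
    refine poly_mul_mem (N := N) (fun i hi => ?_) (Nat.lt_succ_of_le (hS1 k hk'))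
    exact Submodule.subset_span ⟨(⟨k, hk'⟩, ⟨i, hi⟩), rfl⟩
  have h1 : secRank f (b ^ m) = Module.finrank F ((Submodule.span F (Set.range
      fun u : Fin (b ^ m) => fun n : ℕ => f (b ^ m * n + u))).map Ψ) :=
    LinearEquiv.finrank_eq (Submodule.equivMapOfInjective Ψ hΨ _)
  rw [h1]
  refine (Submodule.finrank_mono hsub).trans (hMrank.trans ?_)
  rw [hN]
  have h2 : 2 * (P 0).natDegree * m + H + 1 ≤ (2 * (P 0).natDegree + H + 1) * (m + 1) := by
    nlinarith
  calc (d + 1) * (2 * (P 0).natDegree * m + H + 1)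
      ≤ (d + 1) * ((2 * (P 0).natDegree + H + 1) * (m + 1)) := Nat.mul_le_mul_left _ h2
    _ = _ := by ring

end

end Pool.Agent.Helper39K9.ET
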