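import Pool.Agent.Helper39K9.ET.Alt
import Pool.Agent.Helper39K9.ET.Mahler2

set_option autoImplicit false

/-!
Cubes in `A` and the representation function of order `h`.
-/

namespace Pool.Agent.Helper39K9.ET

open Finset Pool.Agent.TH314.ETH

open Classical in
/-- A cube with distinct vertices gives many representations of one number. -/
theorem rep_of_cube {A : Set ℕ} {h k t : ℕ} (c : ℕ) (d : ℕ → ℕ)
    (hA : ∀ J ⊆ Finset.range t, c + ∑ j ∈ J, d j ∈ A)
    (hinj : ∀ J ⊆ Finset.range t, ∀ J' ⊆ Finset.range t,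
      ∑ j ∈ J, d j = ∑ j ∈ J', d j → J = J') :
    h.choose k ^ t ≤ h ^ h * rep A h (h * c + k * ∑ j ∈ Finset.range t, d j) := by
  set F : Finset ℕ := (Finset.range t).powerset.image fun J => c + ∑ j ∈ J, d j with hF
  have hFA : ∀ a ∈ F, a ∈ A := by
    intro a ha
    obtain ⟨J, hJ, rfl⟩ := Finset.mem_image.1 ha
    exact hA J (Finset.mem_powerset.1 hJ)
  refine le_trans ?_ (RF_le (h := h) hFA (h * c + k * ∑ j ∈ Finset.range t, d j))
  unfold RF
  -- the index sets
  let JJ : (Fin t → Finset (Fin h)) → Fin h → Finset ℕ := fun T i =>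
    (Finset.univ.filter fun j : Fin t => i ∈ T j).map Fin.valEmbedding
  have hJJ : ∀ T i, JJ T i ⊆ Finset.range t := by
    intro T i x hx
    rw [Finset.mem_map] at hx
    obtain ⟨j, _, rfl⟩ := hx
    exact Finset.mem_range.2 j.2
  let v : (Fin t → Finset (Fin h)) → Fin h → ℕ := fun T i => c + ∑ j ∈ JJ T i, d j
  have hcard : (Fintype.piFinset fun _ : Fin t =>
      Finset.powersetCard k (Finset.univ : Finset (Fin h))).card = h.choose k ^ t := by
    rw [Fintype.card_piFinset_const, Finset.card_powersetCard, Finset.card_univ, Fintype.card_fin]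
  rw [← hcard]
  refine Finset.card_le_card_of_injOn v ?_ ?_
  · intro T hT
    rw [Finset.mem_coe, Fintype.mem_piFinset] at hT
    rw [Finset.mem_coe, Finset.mem_filter]
    constructor
    · rw [tup, Fintype.mem_piFinset]
      intro i
      exact Finset.mem_image_of_mem _ (Finset.mem_powerset.2 (hJJ T i))
    · simp only [v]
      rw [Finset.sum_add_distrib, Finset.sum_const, Finset.card_univ, Fintype.card_fin,
        smul_eq_mul]
      congr 1
      have h1 : ∀ i, ∑ j ∈ JJ T i, d j = ∑ j : Fin t, if i ∈ T j then d j else 0 := by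
        intro i
        simp only [JJ]
        rw [Finset.sum_map, Finset.sum_filter]
        rfl
      simp only [h1]
      rw [Finset.sum_comm, Finset.mul_sum, Finset.sum_range (fun j => k * d j)]
      refine Finset.sum_congr rfl fun j _ => ?_
      rw [← Finset.sum_filter, Finset.sum_const, smul_eq_mul]
      congr 1
      have h2 := (Finset.mem_powersetCard.1 (hT j)).2
      rw [← h2]
      congr 1
      ext i
      simp
  · intro T _ T' _ hTT
    have h1 : ∀ i, JJ T i = JJ T' i := by
      intro i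
      have h2 := congrFun hTT i
      simp only [v] at h2
      exact hinj _ (hJJ T i) _ (hJJ T' i) (by omega)
    funext j
    ext i
    have h2 : ∀ S : Fin t → Finset (Fin h), i ∈ S j ↔ (j : ℕ) ∈ JJ S i := by
      intro S
      simp only [JJ, Finset.mem_map, Finset.mem_filter, Finset.mem_univ, true_and,
        Fin.valEmbedding_apply]
      constructor
      · intro h3
        exact ⟨j, h3, rfl⟩
      · rintro ⟨j', h3, h4⟩
        rw [← Fin.ext h4]
        exact h3
    rw [h2, h2, h1]

/-- Functions with small section ranks and large support: many representations. -/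
theorem rep_large {F : Type} [Field F] {b : ℕ} (hb : 2 ≤ b) {f : ℕ → F} {C : ℕ}
    (hC : ∀ m, secRank f (b ^ m) ≤ C * (m + 1)) {A : Set ℕ} (hA : ∀ n, f n ≠ 0 → n ∈ A)
    {h : ℕ} (hh : 2 ≤ h) (m e t : ℕ) (he : 1 ≤ e)
    (hcnt : (2 * ((C + 1) * (m + 1)) ^ 2 ^ t) ^ (m / e) * b ^ (e * t) ≤ cnt f (b ^ m)) :
    ∃ n < h * b ^ m, h.choose (h / 2) ^ t ≤ h ^ h * rep A h n := by
  obtain ⟨c, d, h1, h2⟩ := cube (R := ((C + 1) * (m + 1)) ^ 2 ^ t) hb he
    (Nat.one_le_pow _ _ (Nat.mul_pos (by omega) (by omega))) m t ((C + 1) * (m + 1)) f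
    (Nat.le_self_pow (by norm_num) _)
    (fun k hk => (fac_secRank f (b ^ k)).mono ((hC k).trans
      (Nat.mul_le_mul (by omega) (by omega)))) hcnt
  refine ⟨_, ?_, rep_of_cube (A := A) c d (fun J hJ => hA _ (h1 J hJ).2) h2⟩
  have h3 := (h1 (Finset.range t) (Finset.Subset.refl _)).1
  calc h * c + h / 2 * ∑ j ∈ Finset.range t, d j ≤
        h * c + h * ∑ j ∈ Finset.range t, d j :=
        Nat.add_le_add_left (Nat.mul_le_mul_right _ (Nat.div_le_self h 2)) _
    _ = h * (c + ∑ j ∈ Finset.range t, d j) := by ring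
    _ < h * b ^ m := Nat.mul_lt_mul_of_pos_left h3 (by omega)

end Pool.Agent.Helper39K9.ET
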