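import Pool.Agent.Helper39K9.ET.Cube

set_option autoImplicit false

/-!
Growth of the supports of functions whose section ranks modulo `b ^ m` are `O(m)`.
-/

namespace Pool.Agent.Helper39K9.ET

open Finset Filter Pool.Agent.TH314.ETH

section

variable {F : Type} [Field F]

theorem log_rank_le (C : ℕ) : ∃ C1 : ℝ, 1 ≤ C1 ∧ ∀ m : ℕ,
    Real.log (((C + 1) * (m + 1) : ℕ) : ℝ) ≤ C1 * Real.log ((m : ℝ) + 2) := by
  refine ⟨Real.log ((C : ℝ) + 1) / Real.log 2 + 1, ?_, fun m => ?_⟩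
  · have h1 : 0 ≤ Real.log ((C : ℝ) + 1) := Real.log_nonneg (by
      have : (0 : ℝ) ≤ C := Nat.cast_nonneg _
      linarith)
    have h2 : 0 < Real.log 2 := Real.log_pos (by norm_num)
    have := div_nonneg h1 h2.le
    linarith
  · have h1 : 0 ≤ Real.log ((C : ℝ) + 1) := Real.log_nonneg (by
      have : (0 : ℝ) ≤ C := Nat.cast_nonneg _
      linarith)
    have h2 : 0 < Real.log 2 := Real.log_pos (by norm_num)
    have hm : (0 : ℝ) ≤ m := Nat.cast_nonneg _
    have hC : (0 : ℝ) ≤ C := Nat.cast_nonneg _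
    push_cast
    rw [Real.log_mul (by positivity) (by positivity)]
    have h3 : Real.log 2 ≤ Real.log ((m : ℝ) + 2) := Real.log_le_log (by norm_num) (by linarith)
    have h4 : Real.log ((m : ℝ) + 1) ≤ Real.log ((m : ℝ) + 2) :=
      Real.log_le_log (by linarith) (by linarith)
    have h5 : Real.log ((C : ℝ) + 1) ≤
        Real.log ((C : ℝ) + 1) / Real.log 2 * Real.log ((m : ℝ) + 2) := by
      calc Real.log ((C : ℝ) + 1) = Real.log ((C : ℝ) + 1) / Real.log 2 * Real.log 2 := by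
            field_simp
        _ ≤ _ := mul_le_mul_of_nonneg_left h3 (div_nonneg h1 h2.le)
    rw [add_mul, one_mul]
    linarith

/-- The logarithm of the threshold. -/
theorem log_threshold (C b m e t : ℕ) (hb : 2 ≤ b) :
    Real.log (((2 * ((C + 1) * (m + 1)) ^ 2 ^ t) ^ (m / e) * b ^ (e * t) : ℕ) : ℝ) =
      (m / e : ℕ) * (Real.log 2 + 2 ^ t * Real.log (((C + 1) * (m + 1) : ℕ) : ℝ)) +
        e * t * Real.log b := by
  have hb' : (0 : ℝ) < b := by exact_mod_cast (by omega : 0 < b)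
  have hr : (0 : ℝ) < (((C + 1) * (m + 1) : ℕ) : ℝ) := by
    exact_mod_cast Nat.mul_pos (by omega) (by omega)
  rw [Nat.cast_mul, Nat.cast_pow, Nat.cast_mul, Nat.cast_pow, Nat.cast_pow,
    Real.log_mul (by positivity) (by positivity), Real.log_pow, Real.log_mul (by norm_num)
    (by positivity), Real.log_pow, Real.log_pow]
  push_cast
  ring

theorem cnt_mono (g : ℕ → F) {N M : ℕ} (h : N ≤ M) : cnt g N ≤ cnt g M := by
  classical
  unfold cnt
  refine Finset.card_le_card fun y hy => ?_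
  rw [Finset.mem_filter, Finset.mem_range] at hy ⊢
  exact ⟨by omega, hy.2⟩

theorem two_le_choose {h : ℕ} (hh : 2 ≤ h) : 2 ≤ h.choose (h / 2) := by
  have h1 : h.choose 1 ≤ h.choose (h / 2) := Nat.choose_le_middle 1 h
  rw [Nat.choose_one_right] at h1
  omega

/-- If `r_{A,h}` is bounded then the support has at most `exp (D sqrt (m log m))` elements below
`b ^ m`. -/
theorem growth_le {b : ℕ} (hb : 2 ≤ b) {f : ℕ → F} {C : ℕ}
    (hC : ∀ m, secRank f (b ^ m) ≤ C * (m + 1)) {h : ℕ} (hh : 2 ≤ h) (K : ℕ) :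
    ∃ D : ℝ, 0 < D ∧ ∀ A : Set ℕ, (∀ n, f n ≠ 0 → n ∈ A) → (∀ n, rep A h n ≤ K) →
      ∀ m : ℕ, 1 ≤ m →
        Real.log (cnt f (b ^ m)) ≤ D * Real.sqrt (m * Real.log ((m : ℝ) + 2)) := by
  obtain ⟨C1, hC1, hlog⟩ := log_rank_le C
  set t := h ^ h * K with ht
  have hlb : 0 < Real.log b := Real.log_pos (by exact_mod_cast (by omega : 1 < b))
  refine ⟨(1 + 2 ^ t * C1) + 2 * t * Real.log b, by positivity, fun A hA hK m hm => ?_⟩
  set l := Real.log ((m : ℝ) + 2) with hl
  have hm' : (1 : ℝ) ≤ m := by exact_mod_cast hm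
  have hl1 : 1 ≤ l := by
    rw [hl, Real.le_log_iff_exp_le (by linarith)]
    have := Real.exp_one_lt_d9
    linarith
  set x := Real.sqrt (m * l) with hx
  have hx1 : 1 ≤ x := by
    rw [hx]
    exact Real.one_le_sqrt.2 (by nlinarith)
  have hxx : x * x = m * l := Real.mul_self_sqrt (by positivity)
  set e := ⌈x⌉₊ with he
  have he1 : 1 ≤ e := Nat.one_le_iff_ne_zero.2 (by
    rw [he, Ne, Nat.ceil_eq_zero]
    linarith)
  have hxe : x ≤ e := Nat.le_ceil x
  have hex : (e : ℝ) ≤ 2 * x := by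
    have := Nat.ceil_lt_add_one (by linarith : (0 : ℝ) ≤ x)
    rw [← he] at this
    linarith
  have hl2 : Real.log 2 ≤ l := by
    rw [hl]; exact Real.log_le_log (by norm_num) (by linarith)
  rcases Nat.eq_zero_or_pos (cnt f (b ^ m)) with h0 | h0
  · rw [h0]
    simp only [Nat.cast_zero, Real.log_zero]
    positivity
  · have hlt : cnt f (b ^ m) <
        (2 * ((C + 1) * (m + 1)) ^ 2 ^ t) ^ (m / e) * b ^ (e * t) := by
      by_contra hc
      push Not at hc
      obtain ⟨n, _, hn⟩ := rep_large hb hC hA hh m e t he1 hc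
      have h1 : 2 ^ t ≤ h ^ h * K := by
        calc 2 ^ t ≤ h.choose (h / 2) ^ t := Nat.pow_le_pow_left (two_le_choose hh) t
          _ ≤ h ^ h * rep A h n := hn
          _ ≤ h ^ h * K := Nat.mul_le_mul_left _ (hK n)
      rw [← ht] at h1
      exact absurd (Nat.lt_two_pow_self (n := t)) (by omega)
    have h1 : Real.log (cnt f (b ^ m)) ≤
        (m / e : ℕ) * (Real.log 2 + 2 ^ t * Real.log (((C + 1) * (m + 1) : ℕ) : ℝ)) +
          e * t * Real.log b := by
      rw [← log_threshold C b m e t hb]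
      exact Real.log_le_log (by exact_mod_cast h0) (by exact_mod_cast hlt.le)
    have h2 : ((m / e : ℕ) : ℝ) ≤ m / x := by
      calc ((m / e : ℕ) : ℝ) ≤ (m : ℝ) / e := Nat.cast_div_le
        _ ≤ m / x := div_le_div_of_nonneg_left (by linarith) (by linarith) hxe
    have h3 : Real.log 2 + 2 ^ t * Real.log (((C + 1) * (m + 1) : ℕ) : ℝ) ≤
        (1 + 2 ^ t * C1) * l := by
      have := mul_le_mul_of_nonneg_left (hlog m) (by positivity : (0 : ℝ) ≤ 2 ^ t)
      rw [← hl] at this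
      nlinarith
    have h4 : ((m / e : ℕ) : ℝ) * (Real.log 2 + 2 ^ t * Real.log (((C + 1) * (m + 1) : ℕ) : ℝ)) ≤
        (1 + 2 ^ t * C1) * x := by
      calc _ ≤ (m / e : ℕ) * ((1 + 2 ^ t * C1) * l) :=
            mul_le_mul_of_nonneg_left h3 (Nat.cast_nonneg _)
        _ ≤ m / x * ((1 + 2 ^ t * C1) * l) := by
            refine mul_le_mul_of_nonneg_right h2 ?_
            have : 0 ≤ l := by linarith
            positivity
        _ = (1 + 2 ^ t * C1) * (m * l / x) := by ring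
        _ = (1 + 2 ^ t * C1) * x := by
            rw [← hxx, mul_div_assoc, div_self (by linarith), mul_one]
    have h5 : (e : ℝ) * t * Real.log b ≤ 2 * t * Real.log b * x := by
      have h6 : (0 : ℝ) ≤ t * Real.log b := by positivity
      nlinarith [mul_le_mul_of_nonneg_right hex h6]
    nlinarith

set_option maxHeartbeats 1000000 in
/-- Supports with `N ^ δ` elements force large values of `r_{A,h}`. -/
theorem rep_lower {b : ℕ} (hb : 2 ≤ b) {f : ℕ → F} {C : ℕ}
    (hC : ∀ m, secRank f (b ^ m) ≤ C * (m + 1)) {h : ℕ} (hh : 2 ≤ h) {δ : ℝ} (hδ : 0 < δ) :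
    ∃ c : ℝ, 0 < c ∧ ∀ᶠ m : ℕ in atTop, ∀ A : Set ℕ, (∀ n, f n ≠ 0 → n ∈ A) →
      ((b : ℝ) ^ m) ^ δ ≤ cnt f (b ^ m) →
      ∃ n < h * b ^ m,
        c * (m / Real.log m ^ 2) ^ Real.logb 2 (h.choose (h / 2)) ≤ rep A h n := by
  obtain ⟨C1, hC1, hlog⟩ := log_rank_le C
  have hlb : 0 < Real.log b := Real.log_pos (by exact_mod_cast (by omega : 1 < b))
  set c0 : ℝ := min 1 (δ ^ 2 * Real.log b / (48 * C1)) with hc0
  have hc0p : 0 < c0 := lt_min one_pos (by positivity)
  have hc01 : c0 ≤ 1 := min_le_left _ _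
  have hc02 : 48 * C1 * c0 ≤ δ ^ 2 * Real.log b := by
    have h1 : c0 ≤ δ ^ 2 * Real.log b / (48 * C1) := min_le_right _ _
    rw [le_div_iff₀ (by positivity)] at h1
    linarith
  set κ := Real.logb 2 (h.choose (h / 2)) with hκ
  have hch2 : (2 : ℝ) ≤ h.choose (h / 2) := by exact_mod_cast two_le_choose hh
  have hκ0 : 0 ≤ κ := Real.logb_nonneg (by norm_num) (by linarith)
  have hhp : (0 : ℝ) < (h : ℝ) ^ h := by
    have : (0 : ℝ) < h := by exact_mod_cast (by omega : 0 < h)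
    positivity
  refine ⟨(c0 / 2) ^ κ / h ^ h, by positivity, ?_⟩
  have ev1 : ∀ᶠ m : ℕ in atTop, Real.log m ≤ δ / 8 * m := by
    have h1 := Real.isLittleO_log_id_atTop.bound (by positivity : 0 < δ / 8)
    filter_upwards [tendsto_natCast_atTop_atTop.eventually h1, eventually_ge_atTop 1] with m hm h1
    simp only [id] at hm
    rw [Real.norm_of_nonneg (Real.log_nonneg (by exact_mod_cast h1)),
      Real.norm_of_nonneg (Nat.cast_nonneg _)] at hm
    exact hm
  have ev2 : ∀ᶠ m : ℕ in atTop, Real.log m ^ 2 ≤ c0 * m := by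
    have h1 := (Real.isLittleO_pow_log_id_atTop (n := 2)).bound hc0p
    filter_upwards [tendsto_natCast_atTop_atTop.eventually h1, eventually_ge_atTop 1] with m hm h1
    simp only [id] at hm
    rw [Real.norm_of_nonneg (by positivity), Real.norm_of_nonneg (Nat.cast_nonneg _)] at hm
    exact hm
  filter_upwards [ev1, ev2, eventually_ge_atTop 3] with m hm1 hm2 hm3 A hA hcnt
  have hm' : (3 : ℝ) ≤ m := by exact_mod_cast hm3
  set L := Real.log m with hL
  have hL1 : 1 ≤ L := by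
    rw [hL, Real.le_log_iff_exp_le (by linarith)]
    have := Real.exp_one_lt_d9
    linarith
  have hL0 : 0 < L := by linarith
  have hlog2 : (1 : ℝ) / 2 ≤ Real.log 2 := by
    have := Real.log_two_gt_d9
    linarith
  have hlog21 : Real.log 2 ≤ 1 := by
    have := Real.log_two_lt_d9
    linarith
  set x := c0 * m / L ^ 2 with hx
  have hx1 : 1 ≤ x := by
    rw [hx, le_div_iff₀ (by positivity), one_mul]
    exact hm2
  have hxm : x ≤ m := by
    rw [hx, div_le_iff₀ (by positivity)]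
    nlinarith [mul_le_mul_of_nonneg_right hc01 (by linarith : (0 : ℝ) ≤ m),
      mul_le_mul_of_nonneg_left (by nlinarith : (1 : ℝ) ≤ L ^ 2) (by linarith : (0 : ℝ) ≤ m)]
  have hfl : ⌊x⌋₊ ≠ 0 := by
    have := (Nat.one_le_floor_iff x).2 hx1
    omega
  set t := Nat.log 2 ⌊x⌋₊ with ht
  have ht1 : (2 : ℝ) ^ t ≤ x := by
    have h1 : 2 ^ t ≤ ⌊x⌋₊ := Nat.pow_log_le_self 2 hfl
    calc (2 : ℝ) ^ t ≤ (⌊x⌋₊ : ℝ) := by exact_mod_cast h1
      _ ≤ x := Nat.floor_le (by linarith)
  have ht2 : x ≤ 2 * 2 ^ t := by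
    have h1 : ⌊x⌋₊ + 1 ≤ 2 ^ (t + 1) := Nat.lt_pow_succ_log_self (by norm_num) _
    have h2 := Nat.lt_floor_add_one x
    have h3 : ((⌊x⌋₊ : ℝ) + 1) ≤ 2 ^ (t + 1) := by exact_mod_cast h1
    rw [pow_succ] at h3
    linarith
  have htL : (t : ℝ) ≤ 2 * L := by
    have h1 : (t : ℝ) * Real.log 2 ≤ L := by
      rw [← Real.log_pow, hL]
      exact Real.log_le_log (by positivity) (ht1.trans hxm)
    nlinarith [Nat.cast_nonneg (α := ℝ) t]
  set y := δ * m / (4 * L) with hy
  set e := ⌊y⌋₊ with he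
  have hy2 : 2 ≤ y := by
    rw [hy, le_div_iff₀ (by positivity)]
    nlinarith
  have hey : (e : ℝ) ≤ y := Nat.floor_le (by linarith)
  have hey2 : y / 2 ≤ e := by
    have := Nat.lt_floor_add_one y
    rw [← he] at this
    linarith
  have he1 : 1 ≤ e := (Nat.one_le_floor_iff y).2 (by linarith)
  have he0 : (0 : ℝ) < e := by exact_mod_cast he1
  have hme : ((m / e : ℕ) : ℝ) ≤ 8 * L / δ := by
    calc ((m / e : ℕ) : ℝ) ≤ (m : ℝ) / e := Nat.cast_div_le
      _ ≤ m / (y / 2) := div_le_div_of_nonneg_left (by linarith) (by linarith) hey2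
      _ = 8 * L / δ := by
          rw [hy]
          field_simp
          norm_num
  have hlr : Real.log (((C + 1) * (m + 1) : ℕ) : ℝ) ≤ 2 * C1 * L := by
    refine (hlog m).trans ?_
    have h1 : Real.log ((m : ℝ) + 2) ≤ 2 * L := by
      have h2 : 2 * L = Real.log ((m : ℝ) ^ 2) := by rw [Real.log_pow, hL]; push_cast; ring
      rw [h2]
      exact Real.log_le_log (by linarith) (by nlinarith)
    nlinarith
  have h2t1 : (1 : ℝ) ≤ 2 ^ t := one_le_pow₀ (by norm_num)
  have hin : Real.log 2 + 2 ^ t * Real.log (((C + 1) * (m + 1) : ℕ) : ℝ) ≤ x * (3 * C1 * L) := by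
    have h1 : (2 : ℝ) ^ t * Real.log (((C + 1) * (m + 1) : ℕ) : ℝ) ≤ 2 ^ t * (2 * C1 * L) :=
      mul_le_mul_of_nonneg_left hlr (by positivity)
    have h2 : Real.log 2 ≤ 2 ^ t * (C1 * L) := by
      have h3 : 1 ≤ C1 * L := one_le_mul_of_one_le_of_one_le hC1 hL1
      exact hlog21.trans (one_le_mul_of_one_le_of_one_le h2t1 h3)
    calc _ ≤ 2 ^ t * (C1 * L) + 2 ^ t * (2 * C1 * L) := add_le_add h2 h1
      _ = 2 ^ t * (3 * C1 * L) := by ring
      _ ≤ _ := mul_le_mul_of_nonneg_right ht1 (by positivity)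
  have hcnt0 : 0 < cnt f (b ^ m) := by
    have h1 : (0 : ℝ) < ((b : ℝ) ^ m) ^ δ := by
      have : (0 : ℝ) < b := by exact_mod_cast (by omega : 0 < b)
      positivity
    exact_mod_cast h1.trans_le hcnt
  have hlogcnt : δ * (m * Real.log b) ≤ Real.log (cnt f (b ^ m)) := by
    have h1 : (0 : ℝ) < ((b : ℝ) ^ m) ^ δ := by
      have : (0 : ℝ) < b := by exact_mod_cast (by omega : 0 < b)
      positivity
    have h2 := Real.log_le_log h1 hcnt
    rw [Real.log_rpow (by
      have : (0 : ℝ) < b := by exact_mod_cast (by omega : 0 < b)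
      positivity), Real.log_pow] at h2
    exact h2
  have hthr : (2 * ((C + 1) * (m + 1)) ^ 2 ^ t) ^ (m / e) * b ^ (e * t) ≤ cnt f (b ^ m) := by
    have h1 : Real.log (((2 * ((C + 1) * (m + 1)) ^ 2 ^ t) ^ (m / e) * b ^ (e * t) : ℕ) : ℝ) ≤
        Real.log (cnt f (b ^ m)) := by
      rw [log_threshold C b m e t hb]
      refine le_trans ?_ hlogcnt
      have h2 : ((m / e : ℕ) : ℝ) *
          (Real.log 2 + 2 ^ t * Real.log (((C + 1) * (m + 1) : ℕ) : ℝ)) ≤
          8 * L / δ * (x * (3 * C1 * L)) := by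
        refine mul_le_mul hme hin ?_ (by positivity)
        have h3 : 0 ≤ Real.log (((C + 1) * (m + 1) : ℕ) : ℝ) := Real.log_natCast_nonneg _
        positivity
      have h3 : 8 * L / δ * (x * (3 * C1 * L)) ≤ δ / 2 * (m * Real.log b) := by
        have h4 : 8 * L / δ * (x * (3 * C1 * L)) = (48 * C1 * c0) * m / (2 * δ) := by
          rw [hx]
          field_simp
          norm_num
        rw [h4, div_le_iff₀ (by positivity)]
        have h5 := mul_le_mul_of_nonneg_right hc02 (by linarith : (0 : ℝ) ≤ m)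
        calc 48 * C1 * c0 * m ≤ δ ^ 2 * Real.log b * m := h5
          _ = δ / 2 * (m * Real.log b) * (2 * δ) := by ring
      have h4 : (e : ℝ) * t * Real.log b ≤ δ / 2 * (m * Real.log b) := by
        have h5 : (e : ℝ) * t ≤ y * (2 * L) := mul_le_mul hey htL (Nat.cast_nonneg _) (by linarith)
        have h6 : y * (2 * L) = δ / 2 * m := by
          rw [hy]
          field_simp
          norm_num
        rw [h6] at h5
        calc (e : ℝ) * t * Real.log b ≤ δ / 2 * m * Real.log b :=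
              mul_le_mul_of_nonneg_right h5 hlb.le
          _ = _ := by ring
      calc _ ≤ δ / 2 * (m * Real.log b) + δ / 2 * (m * Real.log b) :=
            add_le_add (h2.trans h3) h4
        _ = _ := by ring
    have h2 : (0 : ℝ) < ((2 * ((C + 1) * (m + 1)) ^ 2 ^ t) ^ (m / e) * b ^ (e * t) : ℕ) := by
      have : 0 < (2 * ((C + 1) * (m + 1)) ^ 2 ^ t) ^ (m / e) * b ^ (e * t) := by
        have : 0 < b := by omega
        positivity
      exact_mod_cast this
    have h3 := (Real.log_le_log_iff h2 (by exact_mod_cast hcnt0)).1 h1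
    exact_mod_cast h3
  obtain ⟨n, hn, hn2⟩ := rep_large hb hC hA hh m e t he1 hthr
  refine ⟨n, hn, ?_⟩
  have h1 : ((h.choose (h / 2) : ℕ) : ℝ) ^ t ≤ (h : ℝ) ^ h * rep A h n := by exact_mod_cast hn2
  have h2 : ((h.choose (h / 2) : ℕ) : ℝ) ^ t = ((2 : ℝ) ^ t) ^ κ := by
    have h3 : ((h.choose (h / 2) : ℕ) : ℝ) = (2 : ℝ) ^ κ :=
      (Real.rpow_logb (by norm_num) (by norm_num) (by linarith)).symm
    rw [h3, ← Real.rpow_natCast, ← Real.rpow_mul (by norm_num), ← Real.rpow_natCast 2 t,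
      ← Real.rpow_mul (by norm_num), mul_comm]
  have h3 : (x / 2) ^ κ ≤ ((2 : ℝ) ^ t) ^ κ :=
    Real.rpow_le_rpow (by linarith) (by linarith) hκ0
  have h4 : (x / 2) ^ κ = (c0 / 2) ^ κ * (m / L ^ 2) ^ κ := by
    rw [← Real.mul_rpow (by positivity) (by positivity)]
    congr 1
    rw [hx]; ring
  rw [h4, ← h2] at h3
  rw [div_mul_eq_mul_div, div_le_iff₀ hhp]
  calc (c0 / 2) ^ κ * (m / L ^ 2) ^ κ ≤ ((h.choose (h / 2) : ℕ) : ℝ) ^ t := h3
    _ ≤ (h : ℝ) ^ h * rep A h n := h1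
    _ = _ := mul_comm _ _

end

end Pool.Agent.Helper39K9.ET
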