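import Pool.Agent.Helper39K9.ET.Growth

set_option autoImplicit false

namespace Pool.Agent.Helper39K9.ET

open Finset Filter Pool.Agent.TH314.ETH

/-- the function `log N / (log log N)^2` -/
noncomputable def phi (N : ℕ) : ℝ := Real.log N / Real.log (Real.log N) ^ 2

theorem tendsto_natLog {b : ℕ} (hb : 2 ≤ b) : Tendsto (fun N : ℕ => Nat.log b N + 1) atTop atTop := by
  rw [tendsto_atTop]
  intro k
  filter_upwards [eventually_ge_atTop (b ^ k)] with N hN
  have := Nat.le_log_of_pow_le (by omega : 1 < b) hN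
  omega

theorem ev_log (C : ℝ) : ∀ᶠ N : ℕ in atTop, C ≤ Real.log N :=
  (Real.tendsto_log_atTop.comp tendsto_natCast_atTop_atTop).eventually_ge_atTop C

theorem phi_compare : ∀ᶠ N : ℕ in atTop, ∀ M : ℕ, N ≤ M → M ≤ N ^ 2 → phi M ≤ 2 * phi N := by
  filter_upwards [ev_log 2, eventually_ge_atTop 2] with N h1 h2 M h3 h4
  have hN : (0 : ℝ) < N := by exact_mod_cast (by omega : 0 < N)
  have hM : (0 : ℝ) < M := by exact_mod_cast (by omega : 0 < M)
  have h5 : Real.log N ≤ Real.log M := Real.log_le_log hN (by exact_mod_cast h3)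
  have h6 : Real.log M ≤ 2 * Real.log N := by
    have : Real.log M ≤ Real.log ((N : ℝ) ^ 2) := Real.log_le_log hM (by exact_mod_cast h4)
    rw [Real.log_pow] at this
    exact_mod_cast this
  have h7 : 0 < Real.log (Real.log N) := Real.log_pos (by linarith)
  have h8 : Real.log (Real.log N) ≤ Real.log (Real.log M) :=
    Real.log_le_log (by linarith) h5
  unfold phi
  rw [← mul_div_assoc]
  refine div_le_div₀ (by linarith) h6 (by positivity) ?_
  exact pow_le_pow_left₀ h7.le h8 2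

theorem phi_nonneg (N : ℕ) : 0 ≤ phi N := by
  unfold phi
  exact div_nonneg (Real.log_natCast_nonneg _) (sq_nonneg _)

section

variable {F : Type} [Field F]

theorem log_bounds {b : ℕ} (hb : 2 ≤ b) {N : ℕ} (hN : b ≤ N) (hlog : 5 ≤ Real.log N) :
    N < b ^ (Nat.log b N + 1) ∧ b ^ (Nat.log b N + 1) ≤ b * N ∧
      ((Nat.log b N + 1 : ℕ) : ℝ) ≤ 3 * Real.log N ∧
      Real.log ((Nat.log b N + 1 : ℕ) + 2) ≤ 2 * Real.log (Real.log N) ∧ 1 ≤ Nat.log b N := by
  have h1 : b ^ Nat.log b N ≤ N := Nat.pow_log_le_self b (by omega)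
  have h1' : 1 ≤ Nat.log b N := by
    have := Nat.le_log_of_pow_le (by omega : 1 < b) (by simpa using hN : b ^ 1 ≤ N)
    exact this
  have h2 : (Nat.log b N : ℝ) * Real.log b ≤ Real.log N := by
    rw [← Real.log_pow]
    refine Real.log_le_log ?_ (by exact_mod_cast h1)
    have : (0 : ℝ) < b := by exact_mod_cast (by omega : 0 < b)
    positivity
  have h3 : (1 : ℝ) / 2 ≤ Real.log b := by
    have h4 := Real.log_two_gt_d9
    have h5 : Real.log 2 ≤ Real.log b := Real.log_le_log (by norm_num) (by exact_mod_cast hb)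
    linarith
  have h4 : (Nat.log b N : ℝ) ≤ 2 * Real.log N := by
    nlinarith [Nat.cast_nonneg (α := ℝ) (Nat.log b N)]
  have h5 : ((Nat.log b N + 1 : ℕ) : ℝ) ≤ 3 * Real.log N := by
    push_cast
    linarith
  refine ⟨Nat.lt_pow_succ_log_self (by omega) N, ?_, h5, ?_, h1'⟩
  · rw [pow_succ, mul_comm]
    exact Nat.mul_le_mul_left _ h1
  · have h6 : 2 * Real.log (Real.log N) = Real.log (Real.log N ^ 2) := by
      rw [Real.log_pow]; push_cast; ring
    rw [h6]
    refine Real.log_le_log (by positivity) ?_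
    nlinarith

theorem growth_N {b : ℕ} (hb : 2 ≤ b) {f : ℕ → F} {C : ℕ}
    (hC : ∀ m, secRank f (b ^ m) ≤ C * (m + 1)) {h : ℕ} (hh : 2 ≤ h) (K : ℕ) :
    ∃ D : ℝ, 0 < D ∧ ∀ᶠ N : ℕ in atTop, ∀ A : Set ℕ, (∀ n, f n ≠ 0 → n ∈ A) →
      (∀ n, rep A h n ≤ K) →
        (cnt f N : ℝ) ≤ Real.exp (D * Real.sqrt (Real.log N * Real.log (Real.log N))) := by
  obtain ⟨D, hD, h1⟩ := growth_le hb hC hh K
  refine ⟨3 * D, by positivity, ?_⟩
  filter_upwards [ev_log 5, eventually_ge_atTop b] with N h2 h3 A hA hK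
  obtain ⟨h4, h5, h6, h7, h7'⟩ := log_bounds hb h3 h2
  set m := Nat.log b N + 1 with hm
  have h8 := h1 A hA hK m (by omega)
  set l := Real.log N with hl
  set ll := Real.log l with hll
  have hll0 : 0 < ll := Real.log_pos (by linarith)
  have h9 : (m : ℝ) * Real.log ((m : ℝ) + 2) ≤ 3 ^ 2 * (l * ll) := by
    have h10 : 0 ≤ Real.log ((m : ℝ) + 2) := Real.log_nonneg (by
      have : (0 : ℝ) ≤ m := Nat.cast_nonneg _
      linarith)
    calc (m : ℝ) * Real.log ((m : ℝ) + 2) ≤ (3 * l) * (2 * ll) :=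
          mul_le_mul h6 h7 h10 (by linarith)
      _ ≤ 3 ^ 2 * (l * ll) := by nlinarith [mul_pos (by linarith : (0 : ℝ) < l) hll0]
  have h10 : Real.sqrt ((m : ℝ) * Real.log ((m : ℝ) + 2)) ≤ 3 * Real.sqrt (l * ll) := by
    calc _ ≤ Real.sqrt (3 ^ 2 * (l * ll)) := Real.sqrt_le_sqrt h9
      _ = 3 * Real.sqrt (l * ll) := by
          rw [Real.sqrt_mul (by norm_num), Real.sqrt_sq (by norm_num)]
  have h11 : Real.log (cnt f N) ≤ 3 * D * Real.sqrt (l * ll) := by
    rcases Nat.eq_zero_or_pos (cnt f N) with h0 | h0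
    · rw [h0]
      simp only [Nat.cast_zero, Real.log_zero]
      positivity
    · have h12 : Real.log (cnt f N) ≤ Real.log (cnt f (b ^ m)) :=
        Real.log_le_log (by exact_mod_cast h0) (by exact_mod_cast cnt_mono f h4.le)
      have h13 := mul_le_mul_of_nonneg_left h10 hD.le
      linarith
  rcases Nat.eq_zero_or_pos (cnt f N) with h0 | h0
  · rw [h0]
    simp only [Nat.cast_zero]
    positivity
  · exact (Real.log_le_iff_le_exp (by exact_mod_cast h0)).1 h11

theorem rep_lower_N {b : ℕ} (hb : 2 ≤ b) {f : ℕ → F} {C : ℕ}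
    (hC : ∀ m, secRank f (b ^ m) ≤ C * (m + 1)) {h : ℕ} (hh : 2 ≤ h) {δ : ℝ} (hδ : 0 < δ) :
    ∃ c : ℝ, 0 < c ∧ ∀ᶠ N : ℕ in atTop, ∀ A : Set ℕ, (∀ n, f n ≠ 0 → n ∈ A) →
      (N : ℝ) ^ δ ≤ cnt f N →
      ∃ n ≤ h * b * N, c * phi N ^ Real.logb 2 (h.choose (h / 2)) ≤ rep A h n := by
  obtain ⟨c, hc, h1⟩ := rep_lower hb hC hh (half_pos hδ)
  have hlb : 0 < Real.log b := Real.log_pos (by exact_mod_cast (by omega : 1 < b))
  set κ := Real.logb 2 (h.choose (h / 2)) with hκ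
  have hch2 : (2 : ℝ) ≤ h.choose (h / 2) := by exact_mod_cast two_le_choose hh
  have hκ0 : 0 ≤ κ := Real.logb_nonneg (by norm_num) (by linarith)
  refine ⟨c / (4 * Real.log b) ^ κ, by positivity, ?_⟩
  filter_upwards [(tendsto_natLog hb).eventually h1, ev_log 5, eventually_ge_atTop b]
    with N h2 h3 h4 A hA hcnt
  obtain ⟨h5, h6, h7, h8, h8'⟩ := log_bounds hb h4 h3
  set m := Nat.log b N + 1 with hm
  have hN0 : (0 : ℝ) < N := by exact_mod_cast (by omega : 0 < N)
  have hb0 : (0 : ℝ) < b := by exact_mod_cast (by omega : 0 < b)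
  have hcnt2 : ((b : ℝ) ^ m) ^ (δ / 2) ≤ cnt f (b ^ m) := by
    have h9 : ((b : ℝ) ^ m) ≤ (N : ℝ) ^ 2 := by
      calc ((b : ℝ) ^ m) ≤ b * N := by exact_mod_cast h6
        _ ≤ N * N := mul_le_mul_of_nonneg_right (by exact_mod_cast h4) hN0.le
        _ = (N : ℝ) ^ 2 := by ring
    calc ((b : ℝ) ^ m) ^ (δ / 2) ≤ ((N : ℝ) ^ 2) ^ (δ / 2) :=
          Real.rpow_le_rpow (by positivity) h9 (by positivity)
      _ = (N : ℝ) ^ δ := by
          rw [← Real.rpow_natCast, ← Real.rpow_mul hN0.le]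
          congr 1
          push_cast
          ring
      _ ≤ cnt f N := hcnt
      _ ≤ cnt f (b ^ m) := by exact_mod_cast cnt_mono f h5.le
  obtain ⟨n, hn, hn2⟩ := h2 A hA hcnt2
  refine ⟨n, ?_, ?_⟩
  · calc n ≤ h * b ^ m := hn.le
      _ ≤ h * (b * N) := Nat.mul_le_mul_left _ h6
      _ = _ := by ring
  · refine le_trans ?_ hn2
    have hm2 : (2 : ℝ) ≤ m := by exact_mod_cast (by omega : 2 ≤ m)
    have hlm : 0 < Real.log m := Real.log_pos (by linarith)
    have hlN : Real.log N ≤ m * Real.log b := by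
      rw [← Real.log_pow]
      exact Real.log_le_log hN0 (by exact_mod_cast h5.le)
    have hll0 : 0 < Real.log (Real.log N) := Real.log_pos (by linarith)
    have hlm2 : Real.log m ≤ 2 * Real.log (Real.log N) := by
      refine le_trans (Real.log_le_log (by linarith) ?_) h8
      linarith
    have h9 : phi N ≤ 4 * Real.log b * (m / Real.log m ^ 2) := by
      unfold phi
      rw [div_le_iff₀ (by positivity)]
      have h10 : Real.log m ^ 2 ≤ 4 * Real.log (Real.log N) ^ 2 := by nlinarith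
      have h11 : 1 ≤ 4 * Real.log (Real.log N) ^ 2 / Real.log m ^ 2 := by
        rw [le_div_iff₀ (by positivity)]
        linarith
      calc Real.log N ≤ m * Real.log b := hlN
        _ = m * Real.log b * 1 := (mul_one _).symm
        _ ≤ m * Real.log b * (4 * Real.log (Real.log N) ^ 2 / Real.log m ^ 2) :=
            mul_le_mul_of_nonneg_left h11 (by positivity)
        _ = _ := by ring
    have h10 : phi N ^ κ ≤ (4 * Real.log b) ^ κ * (m / Real.log m ^ 2) ^ κ := by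
      rw [← Real.mul_rpow (by positivity) (by positivity)]
      exact Real.rpow_le_rpow (phi_nonneg N) h9 hκ0
    have h11 : (0 : ℝ) < (4 * Real.log b) ^ κ := by positivity
    rw [div_mul_eq_mul_div, div_le_iff₀ h11]
    calc c * phi N ^ κ ≤ c * ((4 * Real.log b) ^ κ * (m / Real.log m ^ 2) ^ κ) :=
          mul_le_mul_of_nonneg_left h10 hc.le
      _ = _ := by ring

theorem rep_frequently {b : ℕ} (hb : 2 ≤ b) {f : ℕ → F} {C : ℕ}
    (hC : ∀ m, secRank f (b ^ m) ≤ C * (m + 1)) {h : ℕ} (hh : 2 ≤ h) {δ : ℝ} (hδ : 0 < δ)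
    (hf : ∃ᶠ N : ℕ in atTop, (N : ℝ) ^ δ ≤ cnt f N) :
    ∃ c : ℝ, 0 < c ∧ ∀ A : Set ℕ, (∀ n, f n ≠ 0 → n ∈ A) →
      ∃ᶠ N : ℕ in atTop, ∃ n ≤ N,
        c * phi N ^ Real.logb 2 (h.choose (h / 2)) ≤ rep A h n := by
  obtain ⟨c, hc, h1⟩ := rep_lower_N hb hC hh hδ
  set κ := Real.logb 2 (h.choose (h / 2)) with hκ
  have hch2 : (2 : ℝ) ≤ h.choose (h / 2) := by exact_mod_cast two_le_choose hh
  have hκ0 : 0 ≤ κ := Real.logb_nonneg (by norm_num) (by linarith)
  refine ⟨c / 2 ^ κ, by positivity, fun A hA => ?_⟩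
  have h2 : ∃ᶠ N : ℕ in atTop, ∃ n ≤ h * b * N,
      c / 2 ^ κ * phi (h * b * N) ^ κ ≤ rep A h n := by
    refine (hf.and_eventually (h1.and (phi_compare.and
      (eventually_ge_atTop (h * b))))).mono fun N hN => ?_
    obtain ⟨h3, h4, h5, h6⟩ := hN
    obtain ⟨n, hn, hn2⟩ := h4 A hA h3
    refine ⟨n, hn, ?_⟩
    refine le_trans ?_ hn2
    have h7 : phi (h * b * N) ≤ 2 * phi N := by
      refine h5 _ (Nat.le_mul_of_pos_left _ (Nat.mul_pos (by omega) (by omega))) ?_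
      calc h * b * N ≤ N * N := Nat.mul_le_mul_right _ h6
        _ = N ^ 2 := by ring
    have h8 : phi (h * b * N) ^ κ ≤ 2 ^ κ * phi N ^ κ := by
      rw [← Real.mul_rpow (by norm_num) (phi_nonneg N)]
      exact Real.rpow_le_rpow (phi_nonneg _) h7 hκ0
    have h9 : (0 : ℝ) < 2 ^ κ := by positivity
    rw [div_mul_eq_mul_div, div_le_iff₀ h9]
    calc c * phi (h * b * N) ^ κ ≤ c * (2 ^ κ * phi N ^ κ) := mul_le_mul_of_nonneg_left h8 hc.le
      _ = _ := by ring
  have h3 : Tendsto (fun N : ℕ => h * b * N) atTop atTop :=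
    tendsto_id.const_mul_atTop' (Nat.mul_pos (by omega) (by omega))
  exact h3.frequently h2

end

/-- Bases which are, up to a thin set, finite unions of supports with slowly growing section
ranks. -/
theorem basis_union {h : ℕ} (hh : 2 ≤ h) {A : Set ℕ} (hA : IsBasis A h) (s : ℕ)
    (F : Fin s → Type) [∀ i, Field (F i)] (b : Fin s → ℕ) (hb : ∀ i, 2 ≤ b i)
    (f : (i : Fin s) → ℕ → F i) (hfA : ∀ i n, f i n ≠ 0 → n ∈ A)
    (hC : ∀ i, ∃ C : ℕ, ∀ m, secRank (f i) (b i ^ m) ≤ C * (m + 1))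
    (hthin : ∀ ε : ℝ, 0 < ε → ∀ᶠ N : ℕ in atTop,
      ({n : ℕ | n ∈ A ∧ n < N ∧ ∀ i, f i n = 0}.ncard : ℝ) ^ h ≤ ε * N) :
    ∃ c : ℝ, 0 < c ∧ ∀ᶠ N : ℕ in atTop, ∃ n ≤ N,
      c * phi N ^ Real.logb 2 (h.choose (h / 2)) ≤ rep A h n := by
  classical
  obtain ⟨c1, hc1, hthick⟩ := thickAll_of_basis A (by omega) hA
  set κ := Real.logb 2 (h.choose (h / 2)) with hκ
  have hch2 : (2 : ℝ) ≤ h.choose (h / 2) := by exact_mod_cast two_le_choose hh
  have hκ0 : 0 ≤ κ := Real.logb_nonneg (by norm_num) (by linarith)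
  have hh0 : (0 : ℝ) < h := by exact_mod_cast (by omega : 0 < h)
  have hδ : (0 : ℝ) < 1 / (2 * h) := by positivity
  choose C hC using hC
  have key := fun i => rep_lower_N (hb i) (hC i) hh hδ
  choose c hc hkey using key
  -- some support is large
  have hlarge : ∀ᶠ N : ℕ in atTop, ∃ i, (N : ℝ) ^ (1 / (2 * h) : ℝ) ≤ cnt (f i) N := by
    have hε : 0 < c1 / 4 ^ h := by positivity
    have hsm : ∀ᶠ N : ℕ in atTop, (4 * (s : ℝ) + 1) ^ (2 * h) ≤ c1 ^ 2 * N := by
      have : Tendsto (fun N : ℕ => c1 ^ 2 * (N : ℝ)) atTop atTop :=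
        tendsto_natCast_atTop_atTop.const_mul_atTop (by positivity)
      exact this.eventually_ge_atTop _
    have hbig1 : ∀ᶠ N : ℕ in atTop, (4 : ℝ) ^ h ≤ c1 * N := by
      have : Tendsto (fun N : ℕ => c1 * (N : ℝ)) atTop atTop :=
        tendsto_natCast_atTop_atTop.const_mul_atTop (by positivity)
      exact this.eventually_ge_atTop _
    filter_upwards [hthick, hthin _ hε, hsm, hbig1, eventually_ge_atTop 1]
      with N h1 h2 h3 h3' h4
    have hN0 : (0 : ℝ) < N := by exact_mod_cast h4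
    by_contra hcon
    push Not at hcon
    set X : ℝ := ((A ∩ Set.Icc 1 N).ncard : ℝ) with hX
    set Z : ℝ := ({n : ℕ | n ∈ A ∧ n < N ∧ ∀ i, f i n = 0}.ncard : ℝ) with hZ
    have hX0 : 0 ≤ X := Nat.cast_nonneg _
    have hZ0 : 0 ≤ Z := Nat.cast_nonneg _
    -- `Z ≤ X / 4` and `1 ≤ X / 4`
    have h5 : 4 * Z ≤ X := by
      refine le_of_pow_le_pow_left₀ (n := h) (by omega) hX0 ?_
      calc (4 * Z) ^ h = 4 ^ h * Z ^ h := mul_pow _ _ _
        _ ≤ 4 ^ h * (c1 / 4 ^ h * N) := mul_le_mul_of_nonneg_left h2 (by positivity)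
        _ = c1 * N := by field_simp
        _ ≤ X ^ h := h1
    have h6 : 4 ≤ X := by
      refine le_of_pow_le_pow_left₀ (n := h) (by omega) hX0 ?_
      exact h3'.trans h1
    -- counting
    have h7 : X ≤ Z + ∑ i, (cnt (f i) N : ℝ) + 1 := by
      have hsub : A ∩ Set.Icc 1 N ⊆ ({n : ℕ | n ∈ A ∧ n < N ∧ ∀ i, f i n = 0} ∪
          ((Finset.univ.biUnion fun i => (Finset.range N).filter fun y => f i y ≠ 0 : Finset ℕ) :
            Set ℕ)) ∪ {N} := by
        rintro n ⟨hn1, hn2⟩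
        rw [Set.mem_Icc] at hn2
        rcases Nat.lt_or_ge n N with h8 | h8
        · left
          by_cases h9 : ∀ i, f i n = 0
          · left
            exact ⟨hn1, h8, h9⟩
          · right
            push Not at h9
            obtain ⟨i, hi⟩ := h9
            rw [Finset.mem_coe, Finset.mem_biUnion]
            exact ⟨i, Finset.mem_univ _, Finset.mem_filter.2 ⟨Finset.mem_range.2 h8, hi⟩⟩
        · right
          exact Set.mem_singleton_iff.2 (by omega)
      have hfin1 : {n : ℕ | n ∈ A ∧ n < N ∧ ∀ i, f i n = 0}.Finite :=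
        (Set.finite_Iio N).subset fun n hn => hn.2.1
      have h8 := Set.ncard_le_ncard hsub ((hfin1.union (Finset.finite_toSet _)).union
        (Set.finite_singleton N))
      have h9 := Set.ncard_union_le ({n : ℕ | n ∈ A ∧ n < N ∧ ∀ i, f i n = 0} ∪
          ((Finset.univ.biUnion fun i => (Finset.range N).filter fun y => f i y ≠ 0 : Finset ℕ) :
            Set ℕ)) {N}
      have h10 := Set.ncard_union_le {n : ℕ | n ∈ A ∧ n < N ∧ ∀ i, f i n = 0}
        ((Finset.univ.biUnion fun i => (Finset.range N).filter fun y => f i y ≠ 0 : Finset ℕ) :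
            Set ℕ)
      rw [Set.ncard_singleton] at h9
      rw [Set.ncard_coe_finset] at h10
      have h11 : (Finset.univ.biUnion fun i => (Finset.range N).filter fun y => f i y ≠ 0).card ≤
          ∑ i, cnt (f i) N := Finset.card_biUnion_le
      have h12 : (A ∩ Set.Icc 1 N).ncard ≤
          {n : ℕ | n ∈ A ∧ n < N ∧ ∀ i, f i n = 0}.ncard + ∑ i, cnt (f i) N + 1 := by omega
      rw [hX, hZ]
      exact_mod_cast h12
    have h8 : ∑ i, (cnt (f i) N : ℝ) ≤ s * (N : ℝ) ^ (1 / (2 * h) : ℝ) := by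
      calc ∑ i, (cnt (f i) N : ℝ) ≤ ∑ _i : Fin s, (N : ℝ) ^ (1 / (2 * h) : ℝ) :=
            Finset.sum_le_sum fun i _ => (hcon i).le
        _ = _ := by simp
    have h9 : X ≤ 2 * (s * (N : ℝ) ^ (1 / (2 * h) : ℝ)) := by linarith
    set w : ℝ := (N : ℝ) ^ (1 / (2 * h) : ℝ) with hw
    have hw0 : 0 < w := by positivity
    have hw2 : w ^ (2 * h) = N := by
      rw [hw, ← Real.rpow_natCast, ← Real.rpow_mul hN0.le]
      have : (1 / (2 * h) : ℝ) * ((2 * h : ℕ) : ℝ) = 1 := by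
        push_cast
        field_simp
      rw [this, Real.rpow_one]
    have h10 : X ^ (2 * h) ≤ (2 * (s * w)) ^ (2 * h) := pow_le_pow_left₀ hX0 h9 _
    have h11 : (c1 * N) ^ 2 ≤ X ^ (2 * h) := by
      rw [mul_comm 2 h, pow_mul]
      exact pow_le_pow_left₀ (by positivity) h1 2
    have h12 : (2 * (s * w)) ^ (2 * h) = (2 * (s : ℝ)) ^ (2 * h) * N := by
      rw [← mul_assoc, mul_pow, hw2]
    have h13 : (2 * (s : ℝ)) ^ (2 * h) < (4 * (s : ℝ) + 1) ^ (2 * h) := by
      have hs0 : (0 : ℝ) ≤ s := Nat.cast_nonneg _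
      exact pow_lt_pow_left₀ (by linarith) (by positivity) (by omega)
    have h14 : (c1 * N) ^ 2 ≤ (2 * (s : ℝ)) ^ (2 * h) * N := by
      rw [← h12]; exact h11.trans h10
    have h15 : c1 ^ 2 * N ≤ (2 * (s : ℝ)) ^ (2 * h) := by
      have : (c1 ^ 2 * N) * N ≤ (2 * (s : ℝ)) ^ (2 * h) * N := by
        calc (c1 ^ 2 * N) * N = (c1 * N) ^ 2 := by ring
          _ ≤ _ := h14
      exact le_of_mul_le_mul_right this hN0
    linarith
  -- the constants
  set cc : ℝ := (∑ i, (c i)⁻¹ + 1)⁻¹ with hcc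
  have hsum0 : 0 ≤ ∑ i, (c i)⁻¹ := Finset.sum_nonneg fun i _ => (inv_pos.2 (hc i)).le
  have hcc0 : 0 < cc := inv_pos.2 (by linarith)
  have hccle : ∀ i, cc ≤ c i := by
    intro i
    rw [hcc]
    refine inv_le_of_inv_le₀ (hc i) ?_
    have := Finset.single_le_sum (f := fun i => (c i)⁻¹) (fun i _ => (inv_pos.2 (hc i)).le)
      (Finset.mem_univ i)
    linarith
  set a : ℕ := h * ∑ i, b i + 1 with ha
  have hba : ∀ i, h * b i ≤ a := by
    intro i
    have := Finset.single_le_sum (f := b) (fun i _ => Nat.zero_le _) (Finset.mem_univ i)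
    have := Nat.mul_le_mul_left h this
    omega
  have hall : ∀ᶠ N : ℕ in atTop, ∃ n ≤ a * N, cc * phi N ^ κ ≤ rep A h n := by
    filter_upwards [hlarge, eventually_all.2 hkey] with N h1 h2
    obtain ⟨i, hi⟩ := h1
    obtain ⟨n, hn, hn2⟩ := h2 i A (hfA i) hi
    refine ⟨n, hn.trans (Nat.mul_le_mul_right _ (hba i)), ?_⟩
    refine le_trans ?_ hn2
    exact mul_le_mul_of_nonneg_right (hccle i) (Real.rpow_nonneg (phi_nonneg N) _)
  refine ⟨cc / 2 ^ κ, by positivity, ?_⟩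
  have hdivt : Tendsto (fun M : ℕ => M / a) atTop atTop := by
    rw [tendsto_atTop]
    intro k
    filter_upwards [eventually_ge_atTop (k * a)] with M hM
    rw [Nat.le_div_iff_mul_le (by omega)]
    exact hM
  filter_upwards [hdivt.eventually hall, hdivt.eventually phi_compare,
    hdivt.eventually_ge_atTop (2 * a)] with M h1 h2 h3
  obtain ⟨n, hn, hn2⟩ := h1
  refine ⟨n, hn.trans (Nat.mul_div_le M a), ?_⟩
  refine le_trans ?_ hn2
  have h4 : phi M ≤ 2 * phi (M / a) := by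
    refine h2 M (Nat.div_le_self M a) ?_
    have h5 : M < a * (M / a + 1) := Nat.lt_mul_div_succ M (by omega)
    have h6 : a * (M / a + 1) ≤ (M / a) ^ 2 := by
      have ha1 : 1 ≤ a := by omega
      nlinarith
    omega
  have h8 : phi M ^ κ ≤ 2 ^ κ * phi (M / a) ^ κ := by
    rw [← Real.mul_rpow (by norm_num) (phi_nonneg _)]
    exact Real.rpow_le_rpow (phi_nonneg _) h4 hκ0
  have h9 : (0 : ℝ) < 2 ^ κ := by positivity
  rw [div_mul_eq_mul_div, div_le_iff₀ h9]
  calc cc * phi M ^ κ ≤ cc * (2 ^ κ * phi (M / a) ^ κ) := mul_le_mul_of_nonneg_left h8 hcc0.le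
    _ = _ := by ring

end Pool.Agent.Helper39K9.ET
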