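import Pool.Agent.Helper39K9.ET.Growth

set_option autoImplicit false

namespace Pool.Agent.Helper39K9.ET

open Finset Filter Pool.Agent.TH314.ETH

theorem rep_large' {F : Type} [Field F] {b : ℕ} (hb : 2 ≤ b) {f : ℕ → F} {A : Set ℕ} {h : ℕ}
    (hh : 2 ≤ h) (m e t r : ℕ) (he : 1 ≤ e) (hr : 1 ≤ r) (hC : ∀ k ≤ m, secRank f (b ^ k) ≤ r)
    (hA : ∀ n < b ^ m, f n ≠ 0 → n ∈ A)
    (hcnt : (2 * r ^ 2 ^ t) ^ (m / e) * b ^ (e * t) ≤ cnt f (b ^ m)) :
    ∃ n < h * b ^ m, h.choose (h / 2) ^ t ≤ h ^ h * rep A h n := by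
  obtain ⟨c, d, h1, h2⟩ := cube (R := r ^ 2 ^ t) hb he
    (Nat.one_le_pow _ _ hr) m t r f
    (Nat.le_self_pow (by norm_num) _)
    (fun k hk => (fac_secRank f (b ^ k)).mono (hC k hk)) hcnt
  refine ⟨_, ?_, rep_of_cube (A := A) c d (fun J hJ => hA _ (h1 J hJ).1 (h1 J hJ).2) h2⟩
  have h3 := (h1 (Finset.range t) (Finset.Subset.refl _)).1
  calc h * c + h / 2 * ∑ j ∈ Finset.range t, d j ≤
        h * c + h * ∑ j ∈ Finset.range t, d j :=
        Nat.add_le_add_left (Nat.mul_le_mul_right _ (Nat.div_le_self h 2)) _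
    _ = h * (c + ∑ j ∈ Finset.range t, d j) := by ring
    _ < h * b ^ m := Nat.mul_lt_mul_of_pos_left h3 (by omega)

/-- Power lower bound for the section ranks of functions supported in sets with bounded
representation function. -/
theorem rank_power {h : ℕ} (hh : 2 ≤ h) (K : ℕ) {δ : ℝ} (hδ : 0 < δ) :
    ∃ η : ℝ, 0 < η ∧ ∃ m₀ : ℕ, ∀ b m : ℕ, 2 ≤ b → m₀ ≤ m →
      ∀ (F : Type) [Field F] (f : ℕ → F) (A : Set ℕ), (∀ n < b ^ m, f n ≠ 0 → n ∈ A) →
        (∀ n, rep A h n ≤ K) → ((b : ℝ) ^ m) ^ δ ≤ cnt f (b ^ m) →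
        ∃ k ≤ m, ((b : ℝ) ^ m) ^ η ≤ secRank f (b ^ k) := by
  set t := h ^ h * K + 1 with ht
  have ht1 : (1 : ℝ) ≤ t := by exact_mod_cast (by omega : 1 ≤ t)
  set η : ℝ := δ ^ 2 / (16 * t * 2 ^ t) with hη
  have hη0 : 0 < η := by positivity
  obtain ⟨m₀, hm₀⟩ := exists_nat_ge (max (4 * t / δ) (16 * t / δ ^ 2))
  refine ⟨η, hη0, m₀ + 1, fun b m hb hm F _ f A hA hK hcnt => ?_⟩
  by_contra hcon
  push Not at hcon
  have hm' : (m₀ : ℝ) ≤ m := by exact_mod_cast (by omega : m₀ ≤ m)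
  have hm1 : 4 * t / δ ≤ m := (le_max_left _ _).trans (hm₀.trans hm')
  have hm2 : 16 * t / δ ^ 2 ≤ m := (le_max_right _ _).trans (hm₀.trans hm')
  rw [div_le_iff₀ hδ] at hm1
  rw [div_le_iff₀ (by positivity)] at hm2
  have hb0 : (0 : ℝ) < b := by exact_mod_cast (by omega : 0 < b)
  have hb1 : (1 : ℝ) ≤ b := by exact_mod_cast (by omega : 1 ≤ b)
  have hlb2 : Real.log 2 ≤ Real.log b := Real.log_le_log (by norm_num) (by exact_mod_cast hb)
  have hl2 : 0 < Real.log 2 := Real.log_pos (by norm_num)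
  have hlb : 0 < Real.log b := by linarith
  have hmpos : (0 : ℝ) < m := by
    have : (0 : ℝ) < 4 * t := by linarith
    nlinarith
  -- parameters
  set y := δ * m / (2 * t) with hy
  have hy2 : 2 ≤ y := by
    rw [hy, le_div_iff₀ (by linarith)]
    linarith
  set e := ⌊y⌋₊ with he
  have hey : (e : ℝ) ≤ y := Nat.floor_le (by linarith)
  have hey2 : y / 2 ≤ e := by
    have := Nat.lt_floor_add_one y
    rw [← he] at this
    linarith
  have he1 : 1 ≤ e := (Nat.one_le_floor_iff y).2 (by linarith)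
  have hme : ((m / e : ℕ) : ℝ) ≤ 4 * t / δ := by
    calc ((m / e : ℕ) : ℝ) ≤ (m : ℝ) / e := Nat.cast_div_le
      _ ≤ m / (y / 2) := div_le_div_of_nonneg_left hmpos.le (by linarith) hey2
      _ = 4 * t / δ := by
          rw [hy]
          field_simp
          norm_num
  set B : ℝ := ((b : ℝ) ^ m) ^ η with hB
  have hB1 : 1 ≤ B := Real.one_le_rpow (one_le_pow₀ hb1) hη0.le
  set r := ⌊B⌋₊ with hr
  have hr1 : 1 ≤ r := (Nat.one_le_floor_iff B).2 hB1
  have hrB : (r : ℝ) ≤ B := Nat.floor_le (by linarith)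
  have hrank : ∀ k ≤ m, secRank f (b ^ k) ≤ r := fun k hk => Nat.le_floor (hcon k hk).le
  have hlogr : Real.log r ≤ η * (m * Real.log b) := by
    have h1 : Real.log r ≤ Real.log B := Real.log_le_log (by exact_mod_cast hr1) hrB
    rw [hB, Real.log_rpow (by positivity), Real.log_pow] at h1
    exact h1
  have hcnt0 : 0 < cnt f (b ^ m) := by
    have h1 : (0 : ℝ) < ((b : ℝ) ^ m) ^ δ := by positivity
    exact_mod_cast h1.trans_le hcnt
  have hlogcnt : δ * (m * Real.log b) ≤ Real.log (cnt f (b ^ m)) := by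
    have h1 : (0 : ℝ) < ((b : ℝ) ^ m) ^ δ := by positivity
    have h2 := Real.log_le_log h1 hcnt
    rw [Real.log_rpow (by positivity), Real.log_pow] at h2
    exact h2
  have hthr : (2 * r ^ 2 ^ t) ^ (m / e) * b ^ (e * t) ≤ cnt f (b ^ m) := by
    have h0 : Real.log (((2 * r ^ 2 ^ t) ^ (m / e) * b ^ (e * t) : ℕ) : ℝ) =
        (m / e : ℕ) * (Real.log 2 + 2 ^ t * Real.log r) + e * t * Real.log b := by
      have hr' : (0 : ℝ) < r := by exact_mod_cast hr1
      rw [Nat.cast_mul, Nat.cast_pow, Nat.cast_mul, Nat.cast_pow, Nat.cast_pow,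
        Real.log_mul (by positivity) (by positivity), Real.log_pow, Real.log_mul (by norm_num)
        (by positivity), Real.log_pow, Real.log_pow]
      push_cast
      ring
    have h1 : Real.log (((2 * r ^ 2 ^ t) ^ (m / e) * b ^ (e * t) : ℕ) : ℝ) ≤
        Real.log (cnt f (b ^ m)) := by
      rw [h0]
      refine le_trans ?_ hlogcnt
      have h2 : ((m / e : ℕ) : ℝ) * (Real.log 2 + 2 ^ t * Real.log r) ≤
          4 * t / δ * (Real.log b + 2 ^ t * (η * (m * Real.log b))) := by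
        refine mul_le_mul hme ?_ ?_ (by positivity)
        · have := mul_le_mul_of_nonneg_left hlogr (by positivity : (0 : ℝ) ≤ 2 ^ t)
          linarith
        · have : 0 ≤ Real.log (r : ℝ) := Real.log_natCast_nonneg _
          positivity
      have h3 : 4 * t / δ * (2 ^ t * (η * (m * Real.log b))) = δ / 4 * (m * Real.log b) := by
        rw [hη]
        field_simp
        norm_num
      have h4 : 4 * t / δ * Real.log b ≤ δ / 4 * (m * Real.log b) := by
        rw [div_mul_eq_mul_div, div_le_iff₀ hδ]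
        have h5 := mul_le_mul_of_nonneg_right hm2 hlb.le
        nlinarith
      have h5 : (e : ℝ) * t * Real.log b ≤ δ / 2 * (m * Real.log b) := by
        have h6 : (e : ℝ) * t ≤ y * t := mul_le_mul_of_nonneg_right hey (by linarith)
        have h7 : y * t = δ / 2 * m := by
          rw [hy]
          field_simp
        rw [h7] at h6
        calc (e : ℝ) * t * Real.log b ≤ δ / 2 * m * Real.log b :=
              mul_le_mul_of_nonneg_right h6 hlb.le
          _ = _ := by ring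
      rw [mul_add] at h2
      linarith
    have h2 : (0 : ℝ) < ((2 * r ^ 2 ^ t) ^ (m / e) * b ^ (e * t) : ℕ) := by
      have : 0 < (2 * r ^ 2 ^ t) ^ (m / e) * b ^ (e * t) := by
        have : 0 < b := by omega
        positivity
      exact_mod_cast this
    have h3 := (Real.log_le_log_iff h2 (by exact_mod_cast hcnt0)).1 h1
    exact_mod_cast h3
  obtain ⟨n, _, hn⟩ := rep_large' hb hh m e t r he1 hr1 hrank hA hthr
  have h1 : 2 ^ t ≤ h ^ h * K := by
    calc 2 ^ t ≤ h.choose (h / 2) ^ t := Nat.pow_le_pow_left (two_le_choose hh) t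
      _ ≤ h ^ h * rep A h n := hn
      _ ≤ h ^ h * K := Nat.mul_le_mul_left _ (hK n)
  have h2 := Nat.lt_two_pow_self (n := t)
  omega

end Pool.Agent.Helper39K9.ET
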