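import Pool.Agent.Helper39K9.ET.Base

set_option autoImplicit false

namespace Pool.Agent.Helper39K9.ET

open Finset Pool.Agent.TH314.ETH

open Classical in
/-- the number of nonzero values of `g` on `[0, N)` -/
noncomputable def cnt {F : Type} [Field F] (g : ℕ → F) (N : ℕ) : ℕ :=
  ((Finset.range N).filter fun y => g y ≠ 0).card

open Classical in
theorem cnt_le_sum {F : Type} [Field F] (g : ℕ → F) (Q q : ℕ) (hq : 1 ≤ q) :
    cnt g (Q * q) ≤ ∑ i ∈ Finset.range Q, cnt (fun u => g (q * i + u)) q := by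
  unfold cnt
  have hmaps : ∀ y ∈ (Finset.range (Q * q)).filter (fun y => g y ≠ 0),
      y / q ∈ Finset.range Q := by
    intro y hy
    rw [Finset.mem_filter, Finset.mem_range] at hy
    rw [Finset.mem_range, Nat.div_lt_iff_lt_mul (by omega)]
    exact hy.1
  rw [Finset.card_eq_sum_card_fiberwise hmaps]
  refine Finset.sum_le_sum fun i _ => ?_
  refine Finset.card_le_card_of_injOn (fun y => y % q) ?_ ?_
  · intro y hy
    rw [Finset.mem_coe, Finset.mem_filter, Finset.mem_filter] at hy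
    rw [Finset.mem_coe, Finset.mem_filter, Finset.mem_range]
    refine ⟨Nat.mod_lt _ (by omega), ?_⟩
    have h1 : q * i + y % q = y := by
      rw [← hy.2]; exact Nat.div_add_mod y q
    show g (q * i + y % q) ≠ 0
    rw [h1]
    exact hy.1.2
  · intro y hy z hz hyz
    rw [Finset.mem_coe, Finset.mem_filter] at hy hz
    simp only at hyz
    rw [← Nat.div_add_mod y q, ← Nat.div_add_mod z q, hy.2, hz.2, hyz]

theorem sum_le_max {ι : Type} (S : Finset ι) (N : ι → ℕ) {R : ℕ} (hS : S.card ≤ R)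
    (h0 : 1 ≤ ∑ i ∈ S, N i) : ∃ i ∈ S, ∑ i ∈ S, N i ≤ R * N i := by
  have hne : S.Nonempty := by
    rw [Finset.nonempty_iff_ne_empty]
    rintro rfl
    simp at h0
  obtain ⟨i, hi, hmax⟩ := Finset.exists_max_image S N hne
  refine ⟨i, hi, ?_⟩
  calc ∑ j ∈ S, N j ≤ ∑ _j ∈ S, N i := Finset.sum_le_sum hmax
    _ = S.card * N i := by rw [Finset.sum_const, smul_eq_mul]
    _ ≤ R * N i := Nat.mul_le_mul_right _ hS

open Classical in
/-- The combinatorial step: two rows with a large common support. -/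
theorem step {F : Type} [Field F] {g : ℕ → F} {q Q R C D h r : ℕ} (hh : 1 ≤ h) (hq : 1 ≤ q)
    (hf : Fac g q r) (hrR : r ≤ R)
    (hblk : ∀ i < Q, cnt (fun u => g (q * i + u)) q ^ h ≤ C * q)
    (hY : Q * q ≤ cnt g (Q * q) ^ h * D) (hbig : C * D * (2 * R) ^ h < Q) :
    ∃ i < Q, ∃ s < Q, i ≠ s ∧
      q ≤ cnt (fun u => g (q * i + u) * g (q * s + u)) q ^ h * (D * (2 * Q * R) ^ h) := by
  have hQ : 1 ≤ Q := by omega
  obtain ⟨S, hS, hSQ, hrow⟩ := hf.rows Q
  set Y := cnt g (Q * q) with hYdef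
  set N : ℕ → ℕ := fun i => cnt (fun u => g (q * i + u)) q with hN
  have hsum : Y ≤ ∑ i ∈ Finset.range Q, N i := cnt_le_sum g Q q hq
  have hYpos : 1 ≤ Y := by
    by_contra hc
    have h1 : Y = 0 := by omega
    rw [h1, zero_pow (by omega), zero_mul] at hY
    have : 1 ≤ Q * q := Nat.mul_pos hQ hq
    omega
  -- a large row outside `S`
  have h1 : ∃ i < Q, i ∉ S ∧ Y ≤ 2 * Q * N i := by
    by_contra hc
    push Not at hc
    have h2 : S ⊆ Finset.range Q := fun i hi => Finset.mem_range.2 (hSQ i hi)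
    have h3 : ∑ i ∈ Finset.range Q, N i = ∑ i ∈ Finset.range Q \ S, N i + ∑ i ∈ S, N i :=
      (Finset.sum_sdiff h2).symm
    have h4 : 2 * Q * ∑ i ∈ Finset.range Q \ S, N i ≤ Q * Y := by
      rw [Finset.mul_sum]
      calc ∑ i ∈ Finset.range Q \ S, 2 * Q * N i ≤ ∑ _i ∈ Finset.range Q \ S, Y := by
            refine Finset.sum_le_sum fun i hi => ?_
            rw [Finset.mem_sdiff, Finset.mem_range] at hi
            exact (hc i hi.1 hi.2).le
        _ = (Finset.range Q \ S).card * Y := by rw [Finset.sum_const, smul_eq_mul]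
        _ ≤ Q * Y := by
            refine Nat.mul_le_mul_right _ ?_
            exact (Finset.card_le_card Finset.sdiff_subset).trans (by simp)
    have h5 : Y ≤ 2 * ∑ i ∈ S, N i := by
      rw [h3] at hsum
      have h6 : 2 * Q * Y ≤ Q * Y + 2 * Q * ∑ i ∈ S, N i := by
        calc 2 * Q * Y ≤ 2 * Q * (∑ i ∈ Finset.range Q \ S, N i + ∑ i ∈ S, N i) :=
              Nat.mul_le_mul_left _ hsum
          _ = 2 * Q * ∑ i ∈ Finset.range Q \ S, N i + 2 * Q * ∑ i ∈ S, N i := by ring
          _ ≤ _ := Nat.add_le_add_right h4 _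
      have h7 : Q * Y ≤ Q * (2 * ∑ i ∈ S, N i) := by nlinarith
      exact Nat.le_of_mul_le_mul_left h7 hQ
    obtain ⟨i, hi, hi2⟩ := sum_le_max S N (hS.trans hrR) (by omega)
    have h6 : Y ≤ 2 * R * N i := by nlinarith
    have h7 : Y ^ h ≤ (2 * R) ^ h * (C * q) := by
      calc Y ^ h ≤ (2 * R * N i) ^ h := Nat.pow_le_pow_left h6 h
        _ = (2 * R) ^ h * N i ^ h := by rw [mul_pow]
        _ ≤ _ := Nat.mul_le_mul_left _ (hblk i (hSQ i hi))
    have h8 : Q * q ≤ (C * D * (2 * R) ^ h) * q := by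
      calc Q * q ≤ Y ^ h * D := hY
        _ ≤ ((2 * R) ^ h * (C * q)) * D := Nat.mul_le_mul_right _ h7
        _ = _ := by ring
    have h9 := Nat.le_of_mul_le_mul_right h8 hq
    omega
  obtain ⟨i, hi, hiS, hiY⟩ := h1
  -- a row of `S` with a large common support
  set M : ℕ → ℕ := fun s => cnt (fun u => g (q * i + u) * g (q * s + u)) q with hM
  have h2 : N i ≤ ∑ s ∈ S, M s := by
    have h3 : (Finset.range q).filter (fun u => g (q * i + u) ≠ 0) ⊆
        S.biUnion fun s => (Finset.range q).filter fun u => g (q * i + u) * g (q * s + u) ≠ 0 := by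
      intro u hu
      rw [Finset.mem_filter, Finset.mem_range] at hu
      rw [Finset.mem_biUnion]
      by_contra hc
      push Not at hc
      apply hu.2
      refine hrow u hu.1 (fun s hs => ?_) i hi
      by_contra hne
      exact hc s hs (Finset.mem_filter.2 ⟨Finset.mem_range.2 hu.1, mul_ne_zero hu.2 hne⟩)
    exact (Finset.card_le_card h3).trans Finset.card_biUnion_le
  have hNpos : 1 ≤ N i := by
    by_contra hc
    have h3 : N i = 0 := by omega
    rw [h3, mul_zero] at hiY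
    omega
  obtain ⟨s, hs, hs2⟩ := sum_le_max S M (hS.trans hrR) (by omega)
  refine ⟨i, hi, s, hSQ s hs, fun hc => hiS (hc ▸ hs), ?_⟩
  have h3 : Y ≤ 2 * Q * R * M s := by
    calc Y ≤ 2 * Q * N i := hiY
      _ ≤ 2 * Q * (R * M s) := Nat.mul_le_mul_left _ (h2.trans hs2)
      _ = _ := by ring
  calc q ≤ Q * q := Nat.le_mul_of_pos_left _ hQ
    _ ≤ Y ^ h * D := hY
    _ ≤ (2 * Q * R * M s) ^ h * D := Nat.mul_le_mul_right _ (Nat.pow_le_pow_left h3 h)
    _ = M s ^ h * (D * (2 * Q * R) ^ h) := by rw [mul_pow]; ring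

/-- the exponents of the iteration -/
def ex (h : ℕ) : ℕ → ℕ → ℕ
  | 0, _ => 0
  | t + 1, e => (2 + h + e) + ex h t ((1 + h) * e + h * (h + 3))

open Classical in
/-- The iteration. -/
theorem iterate {A : Set ℕ} {h K b : ℕ} (hh : 1 ≤ h) (hb : 2 ≤ b) (hr : ∀ n, rep A h n ≤ K)
    {F : Type} [Field F] (B : ℕ) (hbB : b ≤ B) (hCB : h ^ (h + 1) * K ≤ B) (t : ℕ) :
    ∀ (m e D r : ℕ) (g : ℕ → F) (X : Finset ℕ) (S : ℕ), X.Nonempty →
      (∀ x ∈ X, b ^ m ∣ x) → (∀ x ∈ X, x ≤ S ∧ S - x ∈ X) →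
      (∀ y < b ^ m, g y ≠ 0 → ∀ x ∈ X, x + y ∈ A) →
      1 ≤ r → 2 * r ^ 2 ^ t ≤ B → (∀ k ≤ m, Fac g (b ^ k) r) →
      b ^ m ≤ cnt g (b ^ m) ^ h * D → D ≤ B ^ e → B ^ ex h t e ≤ b ^ m →
      ∃ (X' : Finset ℕ) (S' : ℕ), X'.card = 2 ^ t * X.card ∧ (∀ x ∈ X', x ∈ A) ∧
        ∀ x ∈ X', x ≤ S' ∧ S' - x ∈ X' := by
  induction t with
  | zero =>
    intro m e D r g X S hX hdiv hsym hA hr1 hrB hfac hcnt hD hbig
    have hpos : cnt g (b ^ m) ≠ 0 := by
      intro h0
      rw [h0, zero_pow (by omega), zero_mul] at hcnt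
      have : 1 ≤ b ^ m := Nat.one_le_pow _ _ (by omega)
      omega
    unfold cnt at hpos
    rw [Finset.card_ne_zero] at hpos
    obtain ⟨y, hy⟩ := hpos
    rw [Finset.mem_filter, Finset.mem_range] at hy
    refine ⟨X.image fun x => x + y, S + 2 * y, ?_, ?_, ?_⟩
    · rw [Finset.card_image_of_injective _ (fun a c hac => by simpa using hac), pow_zero, one_mul]
    · intro z hz
      obtain ⟨x, hx, rfl⟩ := Finset.mem_image.1 hz
      exact hA y hy.1 hy.2 x hx
    · intro z hz
      obtain ⟨x, hx, rfl⟩ := Finset.mem_image.1 hz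
      obtain ⟨h1, h2⟩ := hsym x hx
      refine ⟨by omega, ?_⟩
      rw [Finset.mem_image]
      exact ⟨S - x, h2, by omega⟩
  | succ t ih =>
    intro m e D r g X S hX hdiv hsym hA hr1 hrB hfac hcnt hD hbig
    have hB2 : 2 ≤ B := hb.trans hbB
    have hB1 : 1 ≤ B := by omega
    -- the block length
    have hrpow : r ≤ r ^ 2 ^ (t + 1) := by
      calc r = r ^ 1 := (pow_one r).symm
        _ ≤ r ^ 2 ^ (t + 1) := Nat.pow_le_pow_right hr1 Nat.one_le_two_pow
    have h2r : 2 * r ≤ B := (Nat.mul_le_mul_left 2 hrpow).trans hrB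
    set W := h ^ (h + 1) * K * D * (2 * r) ^ h with hW
    have hWB : W ≤ B ^ (1 + e + h) := by
      calc W ≤ B * B ^ e * B ^ h := Nat.mul_le_mul (Nat.mul_le_mul hCB hD)
            (Nat.pow_le_pow_left h2r h)
        _ = B ^ (1 + e + h) := by rw [pow_add, pow_add, pow_one]
    obtain ⟨k, hk1, hk2⟩ : ∃ k, W < b ^ k ∧ b ^ k ≤ b * max W 1 := by
      refine ⟨Nat.log b W + 1, Nat.lt_pow_succ_log_self (by omega) W, ?_⟩
      rw [pow_succ, mul_comm]
      refine Nat.mul_le_mul_left _ ?_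
      rcases Nat.eq_zero_or_pos W with h0 | h0
      · rw [h0]; simp
      · exact (Nat.pow_log_le_self b (by omega)).trans (le_max_left _ _)
    have hkB : b ^ k ≤ B ^ (2 + h + e) := by
      calc b ^ k ≤ b * max W 1 := hk2
        _ ≤ B * B ^ (1 + e + h) := by
            refine Nat.mul_le_mul hbB (max_le hWB (Nat.one_le_pow _ _ hB1))
        _ = B ^ (2 + h + e) := by
            rw [← pow_succ']; congr 1; omega
    simp only [ex] at hbig
    have hkm : k ≤ m := by
      have h1 : b ^ k ≤ b ^ m := by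
        calc b ^ k ≤ B ^ (2 + h + e) := hkB
          _ ≤ B ^ ((2 + h + e) + ex h t ((1 + h) * e + h * (h + 3))) :=
            Nat.pow_le_pow_right hB1 (Nat.le_add_right _ _)
          _ ≤ b ^ m := hbig
      exact (Nat.pow_le_pow_iff_right (by omega)).1 h1
    obtain ⟨m', rfl⟩ : ∃ m', m = k + m' := ⟨m - k, by omega⟩
    have hq1 : 1 ≤ b ^ m' := Nat.one_le_pow _ _ (by omega)
    obtain ⟨x0, hx0⟩ := hX
    have hpow : b ^ (k + m') = b ^ k * b ^ m' := pow_add _ _ _
    have hlt : ∀ i < b ^ k, ∀ u < b ^ m', b ^ m' * i + u < b ^ (k + m') := by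
      intro i hi u hu
      rw [hpow]
      calc b ^ m' * i + u < b ^ m' * i + b ^ m' := by omega
        _ = b ^ m' * (i + 1) := by ring
        _ ≤ b ^ m' * b ^ k := Nat.mul_le_mul_left _ hi
        _ = _ := by ring
    have hblk : ∀ i < b ^ k, cnt (fun u => g (b ^ m' * i + u)) (b ^ m') ^ h ≤
        h ^ (h + 1) * K * b ^ m' := by
      intro i hi
      have h1 : cnt (fun u => g (b ^ m' * i + u)) (b ^ m') =
          (((Finset.range (b ^ m')).filter fun u => g (b ^ m' * i + u) ≠ 0).image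
            fun u => x0 + (b ^ m' * i + u)).card := by
        rw [Finset.card_image_of_injective _ (fun a c hac => by simpa using hac)]
        rfl
      rw [h1]
      refine interval_bound hh hr _ ?_ (x0 + b ^ m' * i) _ hq1 ?_
      · intro a ha
        obtain ⟨u, hu, rfl⟩ := Finset.mem_image.1 ha
        rw [Finset.mem_filter, Finset.mem_range] at hu
        exact hA _ (hlt i hi u hu.1) hu.2 x0 hx0
      · intro a ha
        obtain ⟨u, hu, rfl⟩ := Finset.mem_image.1 ha
        rw [Finset.mem_filter, Finset.mem_range] at hu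
        omega
    rw [hpow] at hcnt hbig
    obtain ⟨i, hi, s, hs, his, h3⟩ := step (R := r) hh hq1 (hfac m' (by omega)) le_rfl hblk hcnt hk1
    -- the new data
    have hQr : 2 * b ^ k * r ≤ B ^ (3 + h + e) := by
      calc 2 * b ^ k * r = (2 * r) * b ^ k := by ring
        _ ≤ B * B ^ (2 + h + e) := Nat.mul_le_mul h2r hkB
        _ = B ^ (3 + h + e) := by rw [← pow_succ']; congr 1; omega
    have hD' : D * (2 * b ^ k * r) ^ h ≤ B ^ ((1 + h) * e + h * (h + 3)) := by
      calc D * (2 * b ^ k * r) ^ h ≤ B ^ e * (B ^ (3 + h + e)) ^ h :=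
            Nat.mul_le_mul hD (Nat.pow_le_pow_left hQr h)
        _ = B ^ ((1 + h) * e + h * (h + 3)) := by
            rw [← pow_mul, ← pow_add]; congr 1; ring
    have hbig' : B ^ ex h t ((1 + h) * e + h * (h + 3)) ≤ b ^ m' := by
      rw [pow_add] at hbig
      have h4 : b ^ k * B ^ ex h t ((1 + h) * e + h * (h + 3)) ≤ b ^ k * b ^ m' :=
        (Nat.mul_le_mul_right _ hkB).trans hbig
      exact Nat.le_of_mul_le_mul_left h4 (Nat.pow_pos (by omega))
    set X1 : Finset ℕ := (X.image fun x => x + b ^ m' * i) ∪ (X.image fun x => x + b ^ m' * s)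
      with hX1
    have hdisj : Disjoint (X.image fun x => x + b ^ m' * i) (X.image fun x => x + b ^ m' * s) := by
      rw [Finset.disjoint_left]
      intro z hz hz'
      obtain ⟨x, hx, rfl⟩ := Finset.mem_image.1 hz
      obtain ⟨x', hx', h4⟩ := Finset.mem_image.1 hz'
      obtain ⟨a, ha⟩ := hdiv x hx
      obtain ⟨a', ha'⟩ := hdiv x' hx'
      rw [hpow] at ha ha'
      have h5 : b ^ m' * (b ^ k * a' + s) = b ^ m' * (b ^ k * a + i) := by
        calc b ^ m' * (b ^ k * a' + s) = x' + b ^ m' * s := by rw [ha']; ring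
          _ = x + b ^ m' * i := h4
          _ = _ := by rw [ha]; ring
      have h6 := Nat.eq_of_mul_eq_mul_left hq1 h5
      have h7 : (b ^ k * a' + s) % b ^ k = (b ^ k * a + i) % b ^ k := by rw [h6]
      rw [Nat.mul_add_mod, Nat.mul_add_mod, Nat.mod_eq_of_lt hs, Nat.mod_eq_of_lt hi] at h7
      exact his h7.symm
    have hcard : X1.card = 2 * X.card := by
      rw [hX1, Finset.card_union_of_disjoint hdisj,
        Finset.card_image_of_injective _ (fun a c hac => by simpa using hac),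
        Finset.card_image_of_injective _ (fun a c hac => by simpa using hac)]
      ring
    have key := ih m' ((1 + h) * e + h * (h + 3)) (D * (2 * b ^ k * r) ^ h)
      (r * r) (fun u => g (b ^ m' * i + u) * g (b ^ m' * s + u)) X1
      (S + b ^ m' * i + b ^ m' * s) ?_ ?_ ?_ ?_ ?_ ?_ ?_ h3 hD' hbig'
    · obtain ⟨X', S', h5, h6, h7⟩ := key
      refine ⟨X', S', ?_, h6, h7⟩
      rw [h5, hcard]
      ring
    · exact ⟨x0 + b ^ m' * i, Finset.mem_union_left _ (Finset.mem_image_of_mem _ hx0)⟩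
    · intro z hz
      rw [hX1, Finset.mem_union] at hz
      have hd : ∀ x ∈ X, b ^ m' ∣ x := fun x hx =>
        (Dvd.intro_left _ hpow.symm).trans (hdiv x hx)
      rcases hz with hz | hz
      · obtain ⟨x, hx, rfl⟩ := Finset.mem_image.1 hz
        exact Nat.dvd_add (hd x hx) (Dvd.intro _ rfl)
      · obtain ⟨x, hx, rfl⟩ := Finset.mem_image.1 hz
        exact Nat.dvd_add (hd x hx) (Dvd.intro _ rfl)
    · intro z hz
      rw [hX1, Finset.mem_union] at hz
      rcases hz with hz | hz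
      · obtain ⟨x, hx, rfl⟩ := Finset.mem_image.1 hz
        obtain ⟨h8, h9⟩ := hsym x hx
        refine ⟨by omega, ?_⟩
        rw [hX1, Finset.mem_union]
        right
        rw [Finset.mem_image]
        exact ⟨S - x, h9, by omega⟩
      · obtain ⟨x, hx, rfl⟩ := Finset.mem_image.1 hz
        obtain ⟨h8, h9⟩ := hsym x hx
        refine ⟨by omega, ?_⟩
        rw [hX1, Finset.mem_union]
        left
        rw [Finset.mem_image]
        exact ⟨S - x, h9, by omega⟩
    · intro y hy hne z hz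
      rw [hX1, Finset.mem_union] at hz
      have h8 := left_ne_zero_of_mul hne
      have h9 := right_ne_zero_of_mul hne
      rcases hz with hz | hz
      · obtain ⟨x, hx, rfl⟩ := Finset.mem_image.1 hz
        have := hA _ (hlt i hi y hy) h8 x hx
        rwa [← Nat.add_assoc] at this
      · obtain ⟨x, hx, rfl⟩ := Finset.mem_image.1 hz
        have := hA _ (hlt s hs y hy) h9 x hx
        rwa [← Nat.add_assoc] at this
    · exact Nat.mul_pos hr1 hr1
    · have h8 : (r * r) ^ 2 ^ t = r ^ 2 ^ (t + 1) := by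
        rw [← pow_two, ← pow_mul, pow_succ 2 t, mul_comm 2]
      rw [h8]
      exact hrB
    · intro k' hk'
      obtain ⟨j, rfl⟩ : ∃ j, m' = k' + j := ⟨m' - k', by omega⟩
      have h8 := (hfac k' (by omega)).mul (hfac k' (by omega)) (b ^ j * i) (b ^ j * s)
      have h9 : (fun z => g (b ^ k' * (b ^ j * i) + z) * g (b ^ k' * (b ^ j * s) + z)) =
          fun u => g (b ^ (k' + j) * i + u) * g (b ^ (k' + j) * s + u) := by
        funext z
        rw [pow_add, mul_assoc, mul_assoc]
      rw [← h9]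
      exact h8

end Pool.Agent.Helper39K9.ET
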